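import Pool.Agent.Q53.LFT.Full

/-!
# The local criterion in terms of generators and of Hassett divisors
-/

set_option autoImplicit false

namespace Pool.Agent.Q53.LFT

open Pool.Agent.Q168.TW Pool.Agent.Q168.CF4

open Pool.Agent.Q53.LFY Pool.Agent.Q53.LFY.CubLat Pool.Agent.Q53.LFA Pool.Agent.Q53.LFB

variable {H : CubLat}

theorem half_add (hH : H.IsCubic) (x y : Fin 23 → ℤ) :
    H.disc (x + y) / 2 = H.disc x / 2 + H.disc y / 2 + D H x y := by
  have e := disc_comb2 hH 1 1 x y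
  rw [one_smul, one_smul] at e
  obtain ⟨a, ha⟩ := even_disc hH x
  obtain ⟨b, hb⟩ := even_disc hH y
  rw [e, ha, hb]
  omega

theorem half_smul (hH : H.IsCubic) (n : ℤ) (x : Fin 23 → ℤ) :
    H.disc (n • x) / 2 = n ^ 2 * (H.disc x / 2) := by
  have e := disc_comb2 hH n 0 x 0
  rw [zero_smul, add_zero] at e
  obtain ⟨a, ha⟩ := even_disc hH x
  rw [e, ha, Int.mul_ediv_cancel_left a (by norm_num)]
  have : n ^ 2 * (2 * a) + 0 ^ 2 * H.disc 0 + 2 * (n * 0 * D H x 0) = 2 * (n ^ 2 * a) := by ring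
  rw [this, Int.mul_ediv_cancel_left _ (by norm_num)]

/-- divisibility on generators -/
theorem prime_dvd_span (hH : H.IsCubic) (G : Set (Fin 23 → ℤ)) (p : ℤ)
    (h1 : ∀ x ∈ G, ∀ y ∈ G, p ∣ D H x y) (h2 : ∀ x ∈ G, p ∣ H.disc x / 2)
    {x : Fin 23 → ℤ} (hx : x ∈ Submodule.span ℤ G) : p ∣ H.disc x / 2 := by
  have h3 : ∀ g ∈ G, ∀ x ∈ Submodule.span ℤ G, p ∣ D H x g := by
    intro g hg x hx
    induction hx using Submodule.span_induction with
    | mem x hx => exact h1 x hx g hg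
    | zero => rw [D_zero_left]; exact dvd_zero _
    | add x y _ _ hx hy => rw [D_add_left]; exact dvd_add hx hy
    | smul n x _ hx => rw [D_smul_left]; exact Dvd.dvd.mul_left hx n
  have h4 : ∀ x ∈ Submodule.span ℤ G, ∀ y ∈ Submodule.span ℤ G, p ∣ D H y x := by
    intro x hx y hy
    induction hy using Submodule.span_induction with
    | mem y hy => rw [D_comm hH]; exact h3 y hy x hx
    | zero => rw [D_zero_left]; exact dvd_zero _
    | add y z _ _ hy hz => rw [D_add_left]; exact dvd_add hy hz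
    | smul n y _ hy => rw [D_smul_left]; exact Dvd.dvd.mul_left hy n
  induction hx using Submodule.span_induction with
  | mem x hx => exact h2 x hx
  | zero =>
    have : H.disc 0 = 0 := by rw [← D_self hH, D_zero_left]
    rw [this]
    exact dvd_zero _
  | add x y hx hy ihx ihy =>
    rw [half_add hH]
    exact dvd_add (dvd_add ihx ihy) (h4 y hy x hx)
  | smul n x hx ihx =>
    rw [half_smul hH]
    exact Dvd.dvd.mul_left ihx _

/-- the condition at three depends only on the classes modulo three -/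
theorem mod_three (hH : H.IsCubic) (w u : Fin 23 → ℤ)
    (h : H.disc (w + (3 : ℤ) • u) % 3 = 2 ∨ H.disc (w + (3 : ℤ) • u) % 18 = 6) :
    H.disc w % 3 = 2 ∨ H.disc w % 18 = 6 := by
  have e := disc_comb2 hH 1 3 w u
  rw [one_smul] at e
  obtain ⟨c, hc⟩ := even_disc hH u
  rw [e, hc] at h
  rcases h with h | h
  · left; omega
  · right
    have h3 : (3 : ℤ) ∣ H.disc w := by omega
    obtain ⟨d, hd⟩ := three_dvd_D hH (v := u) h3
    rw [hd] at h
    omega

/-- a class gives a divisor -/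
theorem exists_inC (hH : H.IsCubic) {v : Fin 23 → ℤ} (hv : H.IsHodge v) (h0 : H.disc v ≠ 0) :
    ∃ d m : ℤ, InC H d ∧ m ≠ 0 ∧ H.disc v = m ^ 2 * d := by
  have hpos : 0 < H.disc v := lt_of_le_of_ne (disc_nonneg hH hv) (Ne.symm h0)
  obtain ⟨w, m, l, hm, hsat, hw⟩ := hH.exists_saturated _ hpos
  have hwH : H.IsHodge w := by
    refine H.isHodge_of_smul hm.ne' ?_
    have h1 : m • w = v - l • H.h := by
      rw [hw]
      abel
    rw [h1]
    exact H.isHodge_sub hv (H.isHodge_smul _ hH.h_hodge)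
  exact ⟨H.disc w, m, ⟨w, hwH, hsat, rfl⟩, hm.ne', by rw [hw, hH.disc_comb]⟩

theorem inC_even (hH : H.IsCubic) {d : ℤ} (h : InC H d) : ∃ c, d = 2 * c := by
  obtain ⟨v, -, -, rfl⟩ := h
  exact even_disc hH v

/-- the criterion in terms of Hassett divisors -/
theorem local_iff_inC (hH : H.IsCubic) : Local H ↔
    (∀ p : ℕ, p.Prime → p % 3 = 2 → ∃ d, InC H d ∧ ¬ (p : ℤ) ∣ d / 2) ∧
      ∃ d, InC H d ∧ (d % 3 = 2 ∨ d % 18 = 6) := by
  constructor
  · rintro ⟨h1, v, hv, h2⟩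
    refine ⟨fun p hp h3 => ?_, ?_⟩
    · obtain ⟨v, hv, h⟩ := h1 p hp h3
      obtain ⟨d, m, hd, hm, he⟩ := exists_inC hH hv (fun h0 => h (by rw [h0]; exact dvd_zero _))
      obtain ⟨c, rfl⟩ := inC_even hH hd
      refine ⟨_, hd, fun hdvd => h ?_⟩
      rw [Int.mul_ediv_cancel_left c (by norm_num)] at hdvd
      have : H.disc v = 2 * (m ^ 2 * c) := by rw [he]; ring
      rw [this, Int.mul_ediv_cancel_left _ (by norm_num)]
      exact Dvd.dvd.mul_left hdvd _
    · obtain ⟨d, m, hd, hm, he⟩ := exists_inC hH hv (by omega)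
      refine ⟨d, hd, ?_⟩
      obtain ⟨c, rfl⟩ := inC_even hH hd
      rw [he] at h2
      have h3 : m % 3 = 0 ∨ m % 3 = 1 ∨ m % 3 = 2 := by omega
      have h4 : (m ^ 2) % 9 = 0 ∨ (m ^ 2) % 3 = 1 := by
        rcases h3 with h | h | h
        · left
          obtain ⟨k, rfl⟩ : (3 : ℤ) ∣ m := by omega
          have : (3 * k) ^ 2 = 9 * k ^ 2 := by ring
          rw [this]; omega
        · right; rw [pow_two, Int.mul_emod, h]; norm_num
        · right; rw [pow_two, Int.mul_emod, h]; norm_num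
      obtain ⟨n, hn⟩ : ∃ n, n = m ^ 2 := ⟨_, rfl⟩
      rw [← hn] at h2 h4
      have h5 : n * (2 * c) = 2 * (n * c) := by ring
      rw [h5] at h2
      rcases h4 with h4 | h4
      · obtain ⟨k, rfl⟩ : (9 : ℤ) ∣ n := by omega
        have h6 : 2 * (9 * k * c) = 18 * (k * c) := by ring
        rw [h6] at h2
        omega
      · obtain ⟨k, rfl⟩ : ∃ k, n = 3 * k + 1 := ⟨n / 3, by omega⟩
        have h6 : (3 * k + 1) * c = 3 * (k * c) + c := by ring
        rw [h6] at h2
        rcases h2 with h2 | h2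
        · left; omega
        · right
          obtain ⟨j, rfl⟩ : (3 : ℤ) ∣ c := by omega
          have h7 : k * (3 * j) = 3 * (k * j) := by ring
          rw [h7] at h2
          omega
  · rintro ⟨h1, d, ⟨v, hv, -, rfl⟩, h2⟩
    refine ⟨fun p hp h3 => ?_, v, hv, h2⟩
    obtain ⟨d, ⟨w, hw, -, rfl⟩, h⟩ := h1 p hp h3
    exact ⟨w, hw, h⟩

/-- the criterion for a finite set of generators -/
theorem local_iff_gens (hH : H.IsCubic) {n : ℕ} (g : Fin n → Fin 23 → ℤ)
    (hg : ∀ i, H.IsHodge (g i)) (hspan : ∀ v, H.IsHodge v → ∃ c : Fin n → ℤ, v = ∑ i, c i • g i) :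
    Local H ↔
      (∀ p : ℕ, p.Prime → p % 3 = 2 →
        (∃ i, ¬ (p : ℤ) ∣ H.disc (g i) / 2) ∨ ∃ i j, ¬ (p : ℤ) ∣ D H (g i) (g j)) ∧
      ∃ c : Fin n → Fin 3, H.disc (∑ i, ((c i : ℕ) : ℤ) • g i) % 3 = 2 ∨
        H.disc (∑ i, ((c i : ℕ) : ℤ) • g i) % 18 = 6 := by
  have hmem : ∀ v, H.IsHodge v → v ∈ Submodule.span ℤ (Set.range g) := by
    intro v hv
    obtain ⟨c, rfl⟩ := hspan v hv
    exact Submodule.sum_mem _ fun i _ => Submodule.smul_mem _ _ (Submodule.subset_span ⟨i, rfl⟩)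
  constructor
  · rintro ⟨h1, v, hv, h2⟩
    refine ⟨fun p hp h3 => ?_, ?_⟩
    · by_contra hcon
      push Not at hcon
      obtain ⟨a1, a2⟩ := hcon
      obtain ⟨v, hv, h⟩ := h1 p hp h3
      apply h
      refine prime_dvd_span hH (Set.range g) p ?_ ?_ (hmem v hv)
      · rintro _ ⟨i, rfl⟩ _ ⟨j, rfl⟩
        exact a2 i j
      · rintro _ ⟨i, rfl⟩
        exact a1 i
    · obtain ⟨c, rfl⟩ := hspan v hv
      refine ⟨fun i => ⟨(c i % 3).toNat, by omega⟩, ?_⟩
      refine mod_three hH _ (∑ i, (c i / 3) • g i) ?_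
      have e : ∑ i, ((((⟨(c i % 3).toNat, by omega⟩ : Fin 3) : ℕ)) : ℤ) • g i +
          (3 : ℤ) • ∑ i, (c i / 3) • g i = ∑ i, c i • g i := by
        rw [Finset.smul_sum, ← Finset.sum_add_distrib]
        refine Finset.sum_congr rfl fun i _ => ?_
        rw [smul_smul, ← add_smul]
        congr 1
        show (((c i % 3).toNat : ℕ) : ℤ) + 3 * (c i / 3) = c i
        omega
      rw [e]
      exact h2
  · rintro ⟨h1, c, h2⟩
    refine ⟨fun p hp h3 => ?_, _, ?_, h2⟩
    · rcases h1 p hp h3 with ⟨i, h⟩ | ⟨i, j, h⟩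
      · exact ⟨g i, hg i, h⟩
      · by_contra hcon
        push Not at hcon
        apply h
        have a1 := hcon _ (hg i)
        have a2 := hcon _ (hg j)
        have a3 := hcon _ (H.isHodge_add (hg i) (hg j))
        rw [half_add hH] at a3
        exact (Int.dvd_add_right (dvd_add a1 a2)).1 a3
    · exact H.isHodge_sum _ _ fun i _ => H.isHodge_smul _ (hg i)

end Pool.Agent.Q53.LFT
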