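import Pool.Agent.Q168.TW.Hilb
import Pool.Agent.Q53.LFT.Gens

/-!
# Cubic fourfolds whose variety of lines is birational to a Hilbert square
-/

set_option autoImplicit false

namespace Pool.Agent.Q53.LFT

open Pool.Agent.Q168.TW Pool.Agent.Q168.CF4

open Pool.Agent.Q53.LFY Pool.Agent.Q53.LFY.CubLat Pool.Agent.Q53.LFA Pool.Agent.Q53.LFB

variable {H : CubLat}

/-- the local hyperbolic planes -/
theorem loc_of_local (hH : H.IsCubic) (hl : Local H) (ℓ : ℕ) (hℓ : ℓ.Prime) :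
    ∃ p y : mukai H, (ℓ : ℤ) ∣ F H p ∧ ¬ (ℓ : ℤ) ∣ B H p y := by
  have h4 : ℓ % 3 = 0 ∨ ℓ % 3 = 1 ∨ ℓ % 3 = 2 := by omega
  rcases h4 with h4 | h4 | h4
  · have h5 : ℓ = 3 := ((Nat.prime_dvd_prime_iff_eq Nat.prime_three hℓ).1
      (Nat.dvd_of_mod_eq_zero h4)).symm
    subst h5
    obtain ⟨w, hw, hw2⟩ := hl.2
    exact local_ram hH hw hw2
  · exact local_split hH hℓ h4
  · obtain ⟨w, hw, hw2⟩ := hl.1 ℓ hℓ h4
    exact local_inert hH hℓ h4 hw hw2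

/-- the linear form `D(u, ·)` on the Hodge classes -/
def DL (hH : H.IsCubic) (u : Fin 23 → ℤ) : H.hodge →ₗ[ℤ] ℤ where
  toFun v := D H u v
  map_add' v w := D_add_right hH u v w
  map_smul' n v := D_smul_right hH n u v

/-- the linear form `v.h` on the Hodge classes -/
def hL (H : CubLat) : H.hodge →ₗ[ℤ] ℤ where
  toFun v := H.ip v H.h
  map_add' _ _ := ip_add_left H _ _ _
  map_smul' n _ := ip_smul_left H n _ _

theorem exists_ker {n : ℕ} (hr : n < Module.finrank ℤ H.hodge) (f : Fin n → (H.hodge →ₗ[ℤ] ℤ)) :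
    ∃ v : H.hodge, v ≠ 0 ∧ ∀ i, f i v = 0 := by
  by_contra hcon
  push Not at hcon
  have hinj : Function.Injective (LinearMap.pi f) := by
    rw [injective_iff_map_eq_zero]
    intro v hv
    by_contra hne
    obtain ⟨i, hi⟩ := hcon v hne
    exact hi (congrFun hv i)
  have := LinearMap.finrank_le_finrank_of_injective hinj
  rw [Module.finrank_fin_fun] at this
  omega

theorem disc_pos_of (hH : H.IsCubic) {v : H.hodge} (hv : v ≠ 0)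
    (h0 : H.ip (v : Fin 23 → ℤ) H.h = 0) : 0 < H.disc v := by
  have h1 := hH.pos v v.2 fun h => hv (Subtype.ext h)
  have h2 : H.disc (v : Fin 23 → ℤ) = 3 * H.ip (v : Fin 23 → ℤ) v - H.ip (v : Fin 23 → ℤ) H.h ^ 2 := by
    rw [disc, hH.comm H.h]
  rw [h2, h0]
  linarith

theorem exists_orth (hH : H.IsCubic) (hr : 4 ≤ Module.finrank ℤ H.hodge) (v₀ : Fin 23 → ℤ) :
    ∃ v₁ v₂, H.IsHodge v₁ ∧ H.IsHodge v₂ ∧ D H v₀ v₁ = 0 ∧ D H v₀ v₂ = 0 ∧ D H v₁ v₂ = 0 ∧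
      H.disc v₁ ≠ 0 ∧ H.disc v₂ ≠ 0 := by
  obtain ⟨v₁, hv₁, h1⟩ := exists_ker (n := 2) (by omega) ![hL H, DL hH v₀]
  obtain ⟨v₂, hv₂, h2⟩ := exists_ker (n := 3) (by omega) ![hL H, DL hH v₀, DL hH v₁]
  exact ⟨v₁, v₂, v₁.2, v₂.2, h1 1, h2 1, h2 2, (disc_pos_of hH hv₁ (h1 0)).ne',
    (disc_pos_of hH hv₂ (h2 0)).ne'⟩

/-- **The Hilbert square from the local conditions.** -/
theorem hilb_of_local (hH : H.IsCubic) (hr : 4 ≤ Module.finrank ℤ H.hodge)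
    {v₀ : Fin 23 → ℤ} (hv₀ : H.IsHodge v₀) {k : ℤ} (hk : k ≠ 0) (hd : H.disc v₀ = 2 * k ^ 2)
    (hl : Local H) : IsHilb H ∧ H.HasK3 := by
  have hq := isQuad hH
  -- the isotropic vector
  obtain ⟨k', hk', hk2, hmem⟩ : ∃ k' : ℤ, k' ≠ 0 ∧ H.disc v₀ = 2 * k' ^ 2 ∧
      (3 : ℤ) ∣ k' + 0 - H.ip v₀ H.h := by
    have hsq := sq_mod hH v₀
    obtain ⟨s, hs⟩ : ∃ s, s = H.ip v₀ H.h := ⟨_, rfl⟩
    rw [← hs] at hsq ⊢
    have h1 : (3 : ℤ) ∣ (k - s) * (k + s) := by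
      obtain ⟨j, hj⟩ := hsq
      rw [hd] at hj
      exact ⟨k ^ 2 - j, by linear_combination -hj⟩
    rcases Int.prime_three.dvd_or_dvd h1 with h2 | h2
    · exact ⟨k, hk, hd, by omega⟩
    · exact ⟨-k, neg_ne_zero.2 hk, by rw [hd]; ring, by omega⟩
  obtain ⟨v₁, v₂, hv₁, hv₂, h01, h02, h12, hd1, hd2⟩ := exists_orth hH hr v₀
  have hm : ∀ v : Fin 23 → ℤ, (3 : ℤ) ∣ 0 + 0 - H.ip ((3 : ℤ) • v) H.h := by
    intro v
    rw [ip_smul_left]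
    exact ⟨-(H.ip v H.h), by ring⟩
  obtain ⟨p₀, hp₀⟩ : ∃ p₀ : mukai H, p₀ = mk k' 0 hv₀ hmem := ⟨_, rfl⟩
  obtain ⟨y₁, hy₁⟩ : ∃ y₁ : mukai H, y₁ = mk 0 0 (H.isHodge_smul 3 hv₁) (hm v₁) := ⟨_, rfl⟩
  obtain ⟨y₂, hy₂⟩ : ∃ y₂ : mukai H, y₂ = mk 0 0 (H.isHodge_smul 3 hv₂) (hm v₂) := ⟨_, rfl⟩
  have hFp : F H p₀ = 0 := by
    have h6 := six_F hH p₀
    have : 6 * F H p₀ = 6 * 0 := by
      rw [h6, hp₀]
      simp only [mk]
      rw [hk2]; ring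
    exact mul_left_cancel₀ (by norm_num) this
  have h3D : ∀ u v : Fin 23 → ℤ, D H u v = 0 → D H u ((3 : ℤ) • v) = 0 := by
    intro u v h
    rw [D_smul_right hH, h, mul_zero]
  have hBp : ∀ (v : Fin 23 → ℤ) (hv : H.IsHodge v), D H v₀ v = 0 →
      B H p₀ (mk 0 0 (H.isHodge_smul 3 hv) (hm v)) = 0 := by
    intro v hv h
    have h6 := three_B hH p₀ (mk 0 0 (H.isHodge_smul 3 hv) (hm v))
    have : 3 * B H p₀ (mk 0 0 (H.isHodge_smul 3 hv) (hm v)) = 3 * 0 := by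
      rw [h6, hp₀]
      simp only [mk]
      rw [h3D _ _ h]; ring
    exact mul_left_cancel₀ (by norm_num) this
  have hBy : B H y₁ y₂ = 0 := by
    have h6 := three_B hH y₁ y₂
    have : 3 * B H y₁ y₂ = 3 * 0 := by
      rw [h6, hy₁, hy₂]
      simp only [mk]
      rw [D_smul_left, h3D _ _ h12]; ring
    exact mul_left_cancel₀ (by norm_num) this
  have hFy : ∀ (v : Fin 23 → ℤ) (hv : H.IsHodge v), H.disc v ≠ 0 →
      F H (mk 0 0 (H.isHodge_smul 3 hv) (hm v)) ≠ 0 := by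
    intro v hv h h0
    have h6 := six_F hH (mk 0 0 (H.isHodge_smul 3 hv) (hm v))
    rw [h0] at h6
    simp only [mk] at h6
    have e := disc_comb2 hH 3 0 v 0
    rw [zero_smul, add_zero] at e
    rw [e] at h6
    apply h
    linarith
  have hlam : F H (A₁ : mukai H) = 1 := (isA2 hH).one
  obtain ⟨p, hp1, hp2⟩ := exists_isotropic_one (M := mukai H) hq (lam := A₁) (p₀ := p₀)
    (x₁ := -A₂) (y₁ := y₁) (y₂ := y₂) hlam
    (by rw [hq.comm, hq.neg_left, hq.comm, (isA2 hH).cross]; norm_num) hFp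
    (by rw [B_A₁ hH, hp₀]; rfl)
    ⟨A₂, by rw [hq.comm, B_A₂ hH, hp₀]; exact neg_ne_zero.2 hk'⟩
    (loc_of_local hH hl) (by rw [B_A₁ hH, hy₁]; rfl) (by rw [B_A₁ hH, hy₂]; rfl)
    (by rw [hy₁]; exact hBp v₁ hv₁ h01) (by rw [hy₂]; exact hBp v₂ hv₂ h02) hBy
    (by rw [hy₁]; exact hFy v₁ hv₁ hd1) (by rw [hy₂]; exact hFy v₂ hv₂ hd2)
  rw [B_A₁ hH] at hp2
  have h7 := six_F hH p
  rw [hp1, hp2] at h7
  refine of_val hH p.2.1 (n := -p.1.1) ?_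
  linear_combination h7

/-- the equivalence -/
theorem hilb_iff (hH : H.IsCubic) (hr : 4 ≤ Module.finrank ℤ H.hodge)
    {v₀ : Fin 23 → ℤ} (hv₀ : H.IsHodge v₀) {k : ℤ} (hk : k ≠ 0) (hd : H.disc v₀ = 2 * k ^ 2) :
    (IsHilb H ↔ H.HasK3) ∧ (IsHilb H ↔ Local H) := by
  have h1 : IsHilb H ↔ Local H :=
    ⟨fun h => local_of_hasK3 hH (hasK3_of_hilb hH h), fun h => (hilb_of_local hH hr hv₀ hk hd h).1⟩
  exact ⟨h1.trans (hasK3_iff_local hH).symm, h1⟩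

end Pool.Agent.Q53.LFT
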