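import Pool.Agent.Q53.LFT.InfMain

/-!
# Families of classes on cubic fourfolds with at least three independent Hodge classes

From a Hodge class `v` with `k^2 disc v = 2 (c^2 - c e + e^2)` we get by Pell's equation infinitely many
others, with the same `k` and `e`, and the same residue class of the discriminant.
-/

set_option autoImplicit false

namespace Pool.Agent.Q53.LFT

open Pool.Agent.Q168.TW Pool.Agent.Q168.CF4

open Pool.Agent.Q53.LFY Pool.Agent.Q53.LFY.CubLat Pool.Agent.Q53.LFA Pool.Agent.Q53.LFB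

variable {H : CubLat}

theorem disc_of_orth (hH : H.IsCubic) {z : Fin 23 → ℤ} (hz : H.ip z H.h = 0) :
    H.disc z = 3 * H.ip z z := by
  rw [disc, hH.comm H.h z, hz]; ring

theorem D_of_orth {z : Fin 23 → ℤ} (hz : H.ip z H.h = 0) (v : Fin 23 → ℤ) :
    D H z v = 3 * H.ip z v := by
  rw [D, hz]; ring

/-- the auxiliary class -/
theorem exists_z (hH : H.IsCubic) (hr : 3 ≤ Module.finrank ℤ H.hodge) {v : Fin 23 → ℤ}
    (hv : H.IsHodge v) (hd : 0 < H.disc v) :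
    ∃ z, H.IsHodge z ∧ H.ip z H.h = 0 ∧ 0 < H.ip z z ∧ ¬ IsSquare (6 * H.ip z z) ∧ 0 < G H z v := by
  obtain ⟨x, hx, hx2⟩ := exists_ker (n := 2) (by omega) ![hL H, DL hH v]
  have hxh : H.ip (x : Fin 23 → ℤ) H.h = 0 := hx2 0
  have hxD : D H v x = 0 := hx2 1
  have hxx : 0 < H.ip (x : Fin 23 → ℤ) x := hH.pos x x.2 fun h => hx (Subtype.ext h)
  obtain ⟨n, hn⟩ : ∃ n, n = H.ip (x : Fin 23 → ℤ) x := ⟨_, rfl⟩
  have hdx : H.disc (x : Fin 23 → ℤ) = 3 * n := by rw [hn]; exact disc_of_orth hH hxh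
  rw [← hn] at hxx
  by_cases hsq : IsSquare (6 * n)
  swap
  · refine ⟨x, x.2, hxh, by rw [← hn]; exact hxx, by rw [← hn]; exact hsq, ?_⟩
    rw [G, D_comm hH, hxD, hdx]
    have := mul_pos hxx hd
    nlinarith
  obtain ⟨j, hj⟩ := hsq
  obtain ⟨J, hJ, hJ0⟩ : ∃ J : ℤ, 6 * n = J ^ 2 ∧ 1 ≤ J := by
    refine ⟨|j|, by rw [sq_abs, hj]; ring, ?_⟩
    have : j ≠ 0 := by rintro rfl; omega
    have := abs_pos.2 this
    omega
  -- `w = 3 v - (v.h) h`
  obtain ⟨w, hw⟩ : ∃ w, w = (3 : ℤ) • v + (-(H.ip v H.h)) • H.h := ⟨_, rfl⟩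
  have hwH : H.IsHodge w := by
    rw [hw]
    exact H.isHodge_add (H.isHodge_smul _ hv) (H.isHodge_smul _ hH.h_hodge)
  have hwh : H.ip w H.h = 0 := by
    rw [hw, ip_add_left, ip_smul_left, ip_smul_left, hH.h_self]; ring
  have hwd : H.disc w = 9 * H.disc v := by rw [hw, hH.disc_comb]; norm_num
  have hwv : D H w v = 3 * H.disc v := by
    rw [hw, D_add_left, D_smul_left, D_smul_left, D_h hH, D_self hH]; ring
  have hww : H.ip w w = 3 * H.disc v := by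
    have := disc_of_orth hH hwh
    rw [hwd] at this
    linarith
  have hwx : H.ip w x = 0 := by
    have h1 := D_of_orth (H := H) hwh (x : Fin 23 → ℤ)
    have h2 : D H w x = 0 := by
      rw [hw, D_add_left, D_smul_left, D_smul_left, D_h hH, hxD]; ring
    omega
  obtain ⟨k, hk⟩ : ∃ k : ℤ, k = 9 * H.disc v := ⟨_, rfl⟩
  have hkpos : 0 < k := by omega
  obtain ⟨z, hz⟩ : ∃ z, z = k • (x : Fin 23 → ℤ) + w := ⟨_, rfl⟩
  have hzh : H.ip z H.h = 0 := by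
    rw [hz, ip_add_left, ip_smul_left, hxh, hwh]; ring
  have hzz : H.ip z z = k ^ 2 * n + 3 * H.disc v := by
    rw [hz, ip_add_left, ip_add_right, ip_add_right, ip_smul_left, ip_smul_left, ip_smul_right,
      ip_smul_right, hwx, hH.comm (x : Fin 23 → ℤ) w, hwx, hww, ← hn]
    ring
  have hzD : D H z v = 3 * H.disc v := by
    rw [hz, D_add_left, D_smul_left, D_comm hH (x : Fin 23 → ℤ) v, hxD, hwv]; ring
  have hkn : 0 < k ^ 2 * n := mul_pos (by positivity) hxx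
  refine ⟨z, ?_, hzh, ?_, ?_, ?_⟩
  · rw [hz]
    exact H.isHodge_add (H.isHodge_smul _ x.2) hwH
  · rw [hzz]; omega
  · rintro ⟨q, hq⟩
    rw [hzz] at hq
    have h1 : (k * J) ^ 2 + 2 * k = q ^ 2 := by
      have : (k * J) ^ 2 = k ^ 2 * (6 * n) := by rw [hJ]; ring
      rw [this, hk]
      rw [hk] at hq
      linear_combination hq
    have h2 : 1 ≤ k * J := by nlinarith
    have h3 : k ≤ k * J := by nlinarith
    obtain ⟨r, hr⟩ : ∃ r, r = |q| := ⟨_, rfl⟩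
    have h4 : q ^ 2 = r ^ 2 := by rw [hr, sq_abs]
    have h5 : 0 ≤ r := by rw [hr]; exact abs_nonneg q
    rw [h4] at h1
    have h6 : k * J < r := by
      by_contra hcon
      push Not at hcon
      nlinarith
    have h7 : r < k * J + 1 := by
      by_contra hcon
      push Not at hcon
      nlinarith
    omega
  · rw [G, hzD, disc_of_orth hH hzh, hzz]
    have h1 := mul_pos hkn hd
    have h2 : 3 * (k ^ 2 * n + 3 * H.disc v) * H.disc v - (3 * H.disc v) ^ 2 =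
        3 * (k ^ 2 * n * H.disc v) := by ring
    rw [h2]
    linarith

theorem G_add (hH : H.IsCubic) (f : ℤ) (u v : Fin 23 → ℤ) :
    G H u (v + f • u) = G H u v := by
  have e := disc_comb2 hH 1 f v u
  rw [one_smul] at e
  have e2 : D H u (v + f • u) = D H u v + f * H.disc u := by
    rw [D_add_right hH, D_smul_right hH, D_self hH]
  rw [G, e, e2, G, D_comm hH v u]
  ring

/-- adding multiples of `z` keeps a class saturated -/
theorem saturated_add (hH : H.IsCubic) {v z : Fin 23 → ℤ} (hd : 0 < H.disc v)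
    (hsat : H.Saturated v) {μ : ℤ} (hμ : G H z v ∣ μ)
    (hd' : 0 < H.disc (v + μ • z)) : H.Saturated (v + μ • z) := by
  obtain ⟨w, m, l, hm, hw, hv⟩ := hH.exists_saturated _ hd'
  have h1 : G H z v = m ^ 2 * G H z w := by
    rw [← G_add hH μ, hv, G_comb hH]
  have h2 : m ∣ μ := by
    refine Dvd.dvd.trans ?_ hμ
    rw [h1]
    exact ⟨m * G H z w, by ring⟩
  obtain ⟨μ', hμ'⟩ := h2
  obtain ⟨a', b', hab⟩ := hsat (w - μ' • z) m (-l) 1 hm.ne' (by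
    have : v = m • w + l • H.h - μ • z := by rw [← hv]; abel
    rw [this, hμ']
    module)
  have h3 : m * b' = 1 := by
    have h4 : m • (a' • H.h + b' • v) = v - l • H.h := by
      rw [← hab]
      have : v = m • w + l • H.h - μ • z := by rw [← hv]; abel
      rw [this, hμ']
      module
    have h5 := congrArg (fun t => D H t v) h4
    have h6 : D H (v - l • H.h) v = H.disc v := by
      rw [sub_eq_add_neg, ← neg_smul, D_add_left, D_smul_left, D_h hH, D_self hH]; ring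
    simp only [h6, D_smul_left, D_add_left, D_h hH, D_self hH] at h5
    have h7 : H.disc v * (m * b') = H.disc v * 1 := by linear_combination h5
    exact mul_left_cancel₀ hd.ne' h7
  have h8 : m = 1 := by
    have : m ∣ 1 := ⟨b', h3.symm⟩
    exact Int.eq_one_of_dvd_one hm.le this
  rw [h8, one_smul] at hv
  intro x n a b hn hx
  obtain ⟨a₁, b₁, h⟩ := hw x n (a + b * l) b hn (by rw [hx, hv]; module)
  exact ⟨a₁ - b₁ * l, b₁, by rw [h, hv]; module⟩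

/-- Pell's equation -/
theorem pell {n e₀ D L : ℤ} (hn : 0 < n) (hsq : ¬ IsSquare (6 * n)) (he : e₀ ≠ 0)
    (hL : |e₀| < L) : ∃ t y : ℤ, t ^ 2 = 1 + 6 * n * (L * y) ^ 2 ∧ y ≠ 0 ∧
      t * e₀ + 6 * (L * y) * D ≠ 0 := by
  have hL0 : 0 < L := lt_of_le_of_lt (abs_nonneg _) hL
  obtain ⟨t, y, hty, hy⟩ := Pell.exists_of_not_isSquare (d := 6 * n * L ^ 2)
    (mul_pos (by omega) (by positivity)) (by
      rintro ⟨r, hr⟩
      have h1 : L ^ 2 ∣ r ^ 2 := ⟨6 * n, by rw [pow_two r, ← hr]; ring⟩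
      obtain ⟨q, hq⟩ := (Int.pow_dvd_pow_iff two_ne_zero).1 h1
      apply hsq
      refine ⟨q, ?_⟩
      have h2 : L ^ 2 * (6 * n) = L ^ 2 * (q * q) := by
        rw [hq] at hr
        linear_combination hr
      exact mul_left_cancel₀ (pow_ne_zero 2 (by omega)) h2)
  have ht : t ^ 2 = 1 + 6 * n * (L * y) ^ 2 := by linear_combination hty
  refine ⟨t, y, ht, hy, fun h0 => ?_⟩
  obtain ⟨s, hs⟩ : ∃ s, s = L * y := ⟨_, rfl⟩
  rw [← hs] at ht h0
  have hy1 : 1 ≤ |y| := Int.one_le_abs hy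
  have hsL : L ≤ |s| := by
    rw [hs, abs_mul, abs_of_pos hL0]
    nlinarith
  have h1 : e₀ ^ 2 = s ^ 2 * (36 * D ^ 2 - 6 * n * e₀ ^ 2) := by
    have h2 : t * e₀ = -(6 * s * D) := by linarith
    have h3 : t ^ 2 * e₀ ^ 2 = 36 * s ^ 2 * D ^ 2 := by
      calc t ^ 2 * e₀ ^ 2 = (t * e₀) ^ 2 := by ring
        _ = 36 * s ^ 2 * D ^ 2 := by rw [h2]; ring
    rw [ht] at h3
    linear_combination h3
  have h4 : s ^ 2 ≤ e₀ ^ 2 := Int.le_of_dvd (by positivity) ⟨_, h1⟩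
  have h5 : |s| ≤ |e₀| := sq_le_sq.1 h4
  omega

/-- the size of the discriminant -/
theorem size {n δ N μ T d : ℤ} (hn : 0 < n) (hd : 0 < d) (hT : |N| + 6 * |δ| + 1 ≤ T)
    (hμ : 2 * T ≤ |μ|) : |N| < d + 3 * n * μ ^ 2 + 6 * μ * δ := by
  have a2 := abs_nonneg N
  have a3 := abs_nonneg δ
  have b1 : μ ^ 2 = |μ| ^ 2 := (sq_abs μ).symm
  have b2 : -(|μ| * |δ|) ≤ μ * δ := by rw [← abs_mul]; exact neg_abs_le _
  have b3 : 1 * |μ| ^ 2 ≤ n * |μ| ^ 2 := mul_le_mul_of_nonneg_right (by omega) (sq_nonneg _)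
  have b4 : 0 < |μ| := by omega
  have b5 : |N| + 1 ≤ |μ| - 2 * |δ| := by omega
  have b6 : |μ| * (|N| + 1) ≤ |μ| * (|μ| - 2 * |δ|) := mul_le_mul_of_nonneg_left b5 b4.le
  have b7 : 1 * (|N| + 1) ≤ |μ| * (|N| + 1) := mul_le_mul_of_nonneg_right (by omega) (by omega)
  rw [b1]
  have b8 : |μ| * (|μ| - 2 * |δ|) = |μ| ^ 2 - 2 * (|μ| * |δ|) := by ring
  rw [b8] at b6
  linarith

theorem size2 {Γ M T y Q : ℤ} (hG : 0 < Γ) (hM : 0 < M) (hT : 1 ≤ T) (hy : y ≠ 0) (hQ : Q ≠ 0) :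
    2 * T ≤ |2 * (M * Γ * T * y) * Q| := by
  have e1 : |2 * (M * Γ * T * y) * Q| = 2 * (M * Γ * T) * (|y| * |Q|) := by
    rw [abs_mul, abs_mul, abs_mul, abs_of_pos (by positivity : 0 < M * Γ * T),
      abs_of_pos (by norm_num : (0 : ℤ) < 2)]
    ring
  have e2 : 1 ≤ |Q| := Int.one_le_abs hQ
  have e4 : 1 ≤ |y| := Int.one_le_abs hy
  have e3 : 1 ≤ |y| * |Q| := by
    have := mul_le_mul e4 e2 (by norm_num) (by omega)
    linarith
  have e5 : 1 ≤ M * Γ := by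
    have := mul_pos hM hG
    omega
  have e6 : 1 * T ≤ M * Γ * T := mul_le_mul_of_nonneg_right e5 (by omega)
  have e7 : 2 * (M * Γ * T) * 1 ≤ 2 * (M * Γ * T) * (|y| * |Q|) :=
    mul_le_mul_of_nonneg_left e3 (by omega)
  rw [e1]
  linarith

/-- the identity -/
theorem ident {k d n t s D c e : ℤ} (ht : t ^ 2 = 1 + 6 * n * s ^ 2)
    (h : k ^ 2 * d = 2 * (c ^ 2 - c * e + e ^ 2)) :
    k ^ 2 * d + 3 * n * (2 * s * (t * (e - 2 * c) + 6 * s * D)) ^ 2 +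
      6 * (2 * s * (t * (e - 2 * c) + 6 * s * D)) * D =
    2 * ((c - 3 * (2 * t * s * D + 2 * s ^ 2 * n * (e - 2 * c))) ^ 2 -
      (c - 3 * (2 * t * s * D + 2 * s ^ 2 * n * (e - 2 * c))) * e + e ^ 2) := by
  rw [h]
  linear_combination (12 * s ^ 2 * n * (e - 2 * c) ^ 2 - 72 * s ^ 2 * D ^ 2) * ht

/-- **The family.** -/
theorem family (hH : H.IsCubic) (hr : 3 ≤ Module.finrank ℤ H.hodge) {v : Fin 23 → ℤ}
    (hv : H.IsHodge v) (hsat : H.Saturated v) (hd : 0 < H.disc v) {c e k : ℤ} (hk : 0 < k)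
    (hce : e ≠ 2 * c) (h : k ^ 2 * H.disc v = 2 * (c ^ 2 - c * e + e ^ 2)) {M : ℤ} (hM : 0 < M)
    (N : ℤ) : ∃ (v' : Fin 23 → ℤ) (c' : ℤ), H.IsHodge v' ∧ H.Saturated v' ∧ N < H.disc v' ∧
      M ∣ H.disc v' - H.disc v ∧ M ∣ c' - c ∧
      k ^ 2 * H.disc v' = 2 * (c' ^ 2 - c' * e + e ^ 2) := by
  obtain ⟨z, hz, hzh, hzz, hsq, hG⟩ := exists_z hH hr hv hd
  obtain ⟨n, hn⟩ : ∃ n, n = H.ip z z := ⟨_, rfl⟩
  obtain ⟨δ, hδ⟩ : ∃ δ, δ = H.ip z v := ⟨_, rfl⟩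
  obtain ⟨Γ, hΓ⟩ : ∃ Γ, Γ = G H z v := ⟨_, rfl⟩
  obtain ⟨T, hT⟩ : ∃ T : ℤ, T = |e - 2 * c| + |N| + 6 * |δ| + 1 := ⟨_, rfl⟩
  have hzd : H.disc z = 3 * n := by rw [hn]; exact disc_of_orth hH hzh
  have hzD : D H v z = 3 * δ := by rw [D_comm hH, hδ]; exact D_of_orth hzh v
  rw [← hn] at hzz hsq
  rw [← hΓ] at hG
  have a1 := abs_nonneg (e - 2 * c)
  have a2 := abs_nonneg N
  have a3 := abs_nonneg δ
  have hT1 : 1 ≤ T := by omega
  have hL : |e - 2 * c| < k * (M * Γ * T) := by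
    have h1 : 1 ≤ k * (M * Γ) := by
      have := mul_pos hk (mul_pos hM hG)
      omega
    have h2 : 1 * T ≤ k * (M * Γ) * T := mul_le_mul_of_nonneg_right h1 (by omega)
    have h3 : k * (M * Γ * T) = k * (M * Γ) * T := by ring
    rw [h3]
    omega
  obtain ⟨t, y, ht, hy, hQ⟩ := pell (D := k * δ) hzz hsq (sub_ne_zero.2 hce) hL
  obtain ⟨Q, hQdef⟩ : ∃ Q, Q = t * (e - 2 * c) + 6 * (k * (M * Γ * T) * y) * (k * δ) := ⟨_, rfl⟩
  rw [← hQdef] at hQ
  obtain ⟨μ, hμ⟩ : ∃ μ, μ = 2 * (M * Γ * T * y) * Q := ⟨_, rfl⟩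
  have hμT : 2 * T ≤ |μ| := by rw [hμ]; exact size2 hG hM hT1 hy hQ
  obtain ⟨v', hv'⟩ : ∃ v', v' = v + μ • z := ⟨_, rfl⟩
  have hd' : H.disc v' = H.disc v + 3 * n * μ ^ 2 + 6 * μ * δ := by
    have e1 := disc_comb2 hH 1 μ v z
    rw [one_smul] at e1
    rw [hv', e1, hzd, hzD]
    ring
  have hbig : |N| < H.disc v' := by
    rw [hd']
    exact size hzz hd (by omega) hμT
  have hpos' : 0 < H.disc v' := by omega
  refine ⟨v', c - 3 * (2 * t * (k * (M * Γ * T) * y) * (k * δ) +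
    2 * (k * (M * Γ * T) * y) ^ 2 * n * (e - 2 * c)), ?_, ?_, ?_, ?_, ?_, ?_⟩
  · rw [hv']
    exact H.isHodge_add hv (H.isHodge_smul _ hz)
  · rw [hv']
    rw [hv'] at hpos'
    refine saturated_add hH hd hsat ?_ hpos'
    rw [← hΓ, hμ]
    exact ⟨2 * (M * T * y) * Q, by ring⟩
  · exact lt_of_le_of_lt (le_abs_self N) hbig
  · rw [hd', hμ]
    exact ⟨2 * (Γ * T * y) * Q * (3 * n * (2 * (M * Γ * T * y) * Q) + 6 * δ), by ring⟩
  · exact ⟨-3 * (2 * t * (k * (Γ * T) * y) * (k * δ) +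
      2 * (k * (Γ * T) * y) * (k * (M * Γ * T) * y) * n * (e - 2 * c)), by ring⟩
  · rw [← ident ht h, hd', hμ, hQdef]
    ring

end Pool.Agent.Q53.LFT
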