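import Pool.Agent.Q53.LFT.Untwist
import Pool.Agent.Q168.TW.Binary

/-!
# The local criterion for a K3 surface associated with a cubic fourfold
-/

set_option autoImplicit false

namespace Pool.Agent.Q53.LFT

open Pool.Agent.Q168.TW Pool.Agent.Q168.CF4

open Pool.Agent.Q53.LFY Pool.Agent.Q53.LFY.CubLat Pool.Agent.Q53.LFA Pool.Agent.Q53.LFB

/-- `n` is a norm from `ℚ(√-3)` -/
def RN (n : ℤ) : Prop := ∃ x y z : ℤ, z ≠ 0 ∧ x ^ 2 + 3 * y ^ 2 = n * z ^ 2

theorem RN.mul {m n : ℤ} (hm : RN m) (hn : RN n) : RN (m * n) := by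
  obtain ⟨x, y, z, hz, h⟩ := hm
  obtain ⟨x', y', z', hz', h'⟩ := hn
  refine ⟨x * x' - 3 * y * y', x * y' + x' * y, z * z', mul_ne_zero hz hz', ?_⟩
  have : (x * x' - 3 * y * y') ^ 2 + 3 * (x * y' + x' * y) ^ 2 =
      (x ^ 2 + 3 * y ^ 2) * (x' ^ 2 + 3 * y' ^ 2) := by ring
  rw [this, h, h']
  ring

theorem RN.sq (k : ℤ) : RN (k ^ 2) := ⟨k, 0, 1, one_ne_zero, by ring⟩

theorem RN.three : RN 3 := ⟨0, 1, 1, one_ne_zero, by ring⟩

theorem RN.prime {ℓ : ℕ} (hℓ : ℓ.Prime) (h1 : ℓ % 3 = 1) : RN ℓ := by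
  obtain ⟨x, k, hk⟩ := exists_root hℓ h1
  have h3 : ¬ ℓ ∣ 3 := by
    intro h
    have := (Nat.prime_dvd_prime_iff_eq hℓ Nat.prime_three).1 h
    omega
  have h31 : ¬ ℓ ∣ 1 := fun h => hℓ.one_lt.ne' (Nat.dvd_one.1 h)
  obtain ⟨a, b, c, hc, h⟩ := conic (n := ℓ) (d := 3) hℓ.pos (by norm_num)
    ((Nat.Prime.coprime_iff_not_dvd hℓ).2 h3)
    ⟨2 * x - 1, 4 * k, by push_cast; linear_combination 4 * hk⟩
    ⟨1, by omega⟩
    (fun x hx => not_sq_of_prime (m := 3) hℓ h3 x (by rw [hx]; push_cast; ring))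
    (fun x hx => not_sq_of_prime (m := 1) hℓ h31 x (by rw [hx]; push_cast; ring))
  exact ⟨a, b, c, hc, by push_cast at h; exact h⟩

theorem RN.of_nat (n : ℕ) (hn : n ≠ 0) (h : ∀ p : ℕ, p.Prime → p ∣ n → p % 3 ≠ 2) : RN n := by
  induction n using induction_on_primes with
  | zero => exact absurd rfl hn
  | one => exact ⟨1, 0, 1, one_ne_zero, by norm_num⟩
  | prime_mul p a hp ih =>
    have ha : a ≠ 0 := fun h => hn (by rw [h, mul_zero])
    have h1 := ih ha fun q hq hqa => h q hq (Dvd.dvd.mul_left hqa p)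
    have h2 := h p hp (dvd_mul_right p a)
    have h3 : RN p := by
      by_cases h4 : p = 3
      · rw [h4]
        exact_mod_cast RN.three
      · refine RN.prime hp ?_
        have : p % 3 ≠ 0 := fun h => h4 ((Nat.prime_dvd_prime_iff_eq Nat.prime_three hp).1
          (Nat.dvd_of_mod_eq_zero h)).symm
        omega
    push_cast
    exact h3.mul h1

section

variable {M : Type} [AddCommGroup M] {F : M → ℤ} {B : M → M → ℤ}

theorem dvd_B (hF : IsQuad F B) {g : ℤ} (h : ∀ v, g ∣ F v) (v w : M) : g ∣ B v w := by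
  have : B v w = F (v + w) - F v - F w := by rw [hF.F_add]; ring
  rw [this]
  exact dvd_sub (dvd_sub (h _) (h _)) (h _)

theorem isQuad_div (hF : IsQuad F B) {g : ℤ} (_hg : g ≠ 0) (h : ∀ v, g ∣ F v) :
    IsQuad (fun v => F v / g) (fun v w => B v w / g) where
  add_left x y z := by
    show B (x + y) z / g = B x z / g + B y z / g
    rw [hF.add_left, Int.add_ediv_of_dvd_left (dvd_B hF h x z)]
  comm x y := by
    show B x y / g = B y x / g
    rw [hF.comm]
  F_add x y := by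
    show F (x + y) / g = F x / g + F y / g + B x y / g
    rw [hF.F_add, Int.add_ediv_of_dvd_left (dvd_add (h x) (h y)), Int.add_ediv_of_dvd_left (h x)]
  F_smul n x := by
    show F (n • x) / g = n ^ 2 * (F x / g)
    rw [hF.F_smul, Int.mul_ediv_assoc _ (h x)]

omit [AddCommGroup M] in
theorem exists_content (F : M → ℤ) (hne : ∃ v, F v ≠ 0) : ∃ g : ℤ, 0 < g ∧ (∀ v, g ∣ F v) ∧
    ∀ n : ℤ, (∀ v, n ∣ F v) → n ∣ g := by
  obtain ⟨g, hg⟩ := Int.subgroup_cyclic (AddSubgroup.closure (Set.range F))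
  have h1 : ∀ v, g ∣ F v := by
    intro v
    have : F v ∈ AddSubgroup.closure {g} := by
      rw [← hg]; exact AddSubgroup.subset_closure ⟨v, rfl⟩
    rw [AddSubgroup.mem_closure_singleton] at this
    obtain ⟨n, hn⟩ := this
    exact ⟨n, by rw [← hn, smul_eq_mul, mul_comm]⟩
  have h2 : ∀ n : ℤ, (∀ v, n ∣ F v) → n ∣ g := by
    intro n hn
    have h3 : g ∈ AddSubgroup.closure (Set.range F) := by
      rw [hg]; exact AddSubgroup.mem_closure_singleton_self g
    have h4 : AddSubgroup.closure (Set.range F) ≤ AddSubgroup.zmultiples n := by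
      rw [AddSubgroup.closure_le]
      rintro _ ⟨v, rfl⟩
      exact Int.mem_zmultiples_iff.2 (hn v)
    exact Int.mem_zmultiples_iff.1 (h4 h3)
  have hg0 : g ≠ 0 := by
    rintro rfl
    obtain ⟨v, hv⟩ := hne
    exact hv (zero_dvd_iff.1 (h1 v))
  rcases lt_or_gt_of_ne hg0 with h | h
  · exact ⟨-g, by omega, fun v => (neg_dvd).2 (h1 v), fun n hn => (dvd_neg).2 (h2 n hn)⟩
  · exact ⟨g, h, h1, h2⟩

/-- **A norm among the values of a positive semidefinite form.** -/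
theorem exists_norm_value (hF : IsQuad F B) (hpos : ∀ v, 0 ≤ F v)
    (h1 : ∀ p : ℕ, p.Prime → p % 3 = 2 → ∃ v, ¬ (p : ℤ) ∣ F v)
    (h2 : ∃ v, F v % 3 = 1 ∨ F v % 9 = 3) (h3 : ∀ v, F v % 3 ≠ 2) : ∃ v, F v ≠ 0 ∧ RN (F v) := by
  obtain ⟨g, hg, hgd, hgm⟩ := exists_content F (by
    obtain ⟨v, hv⟩ := h1 2 Nat.prime_two (by norm_num)
    exact ⟨v, fun h => hv (by rw [h]; exact dvd_zero _)⟩)
  -- the primes dividing the content
  have hgp : ∀ p : ℕ, p.Prime → (p : ℤ) ∣ g → p % 3 ≠ 2 := by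
    intro p hp hpg h
    obtain ⟨v, hv⟩ := h1 p hp h
    exact hv (hpg.trans (hgd v))
  have hg9 : ¬ (9 : ℤ) ∣ g := by
    intro h
    obtain ⟨v, hv⟩ := h2
    have := h.trans (hgd v)
    omega
  obtain ⟨n, hn⟩ : ∃ n : ℕ, (n : ℤ) = g := ⟨g.toNat, Int.toNat_of_nonneg hg.le⟩
  have hn0 : n ≠ 0 := by rintro rfl; push_cast at hn; omega
  have hRg : RN g := by
    rw [← hn]
    exact RN.of_nat n hn0 fun p hp hpn => hgp p hp (by rw [← hn]; exact Int.natCast_dvd_natCast.2 hpn)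
  -- the primitive form
  obtain ⟨F', hF'⟩ : ∃ F' : M → ℤ, F' = fun v => F v / g := ⟨_, rfl⟩
  obtain ⟨B', hB'⟩ : ∃ B' : M → M → ℤ, B' = fun v w => B v w / g := ⟨_, rfl⟩
  have hq : IsQuad F' B' := by rw [hF', hB']; exact isQuad_div hF hg.ne' hgd
  have hval : ∀ v, F v = g * F' v := by
    intro v
    rw [hF']
    exact (Int.mul_ediv_cancel' (hgd v)).symm
  have hpos' : ∀ v, 0 ≤ F' v := by
    intro v
    have := hpos v
    rw [hval] at this
    exact nonneg_of_mul_nonneg_right this hg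
  have hprim : ∀ p : ℕ, p.Prime → ∃ v, ¬ (p : ℤ) ∣ F' v := by
    intro p hp
    by_contra hcon
    push Not at hcon
    have h4 : (p : ℤ) * g ∣ g := hgm _ fun v => by
      rw [hval]
      obtain ⟨k, hk⟩ := hcon v
      exact ⟨k, by rw [hk]; ring⟩
    obtain ⟨k, hk⟩ := h4
    have h5 : g * (p * k) = g * 1 := by linear_combination -hk
    have h6 := mul_left_cancel₀ hg.ne' h5
    exact (Nat.prime_iff_prime_int.1 hp).not_isUnit (isUnit_of_dvd_one ⟨k, h6.symm⟩)
  obtain ⟨v₀, hv₀⟩ : ∃ v₀, F' v₀ % 3 = 1 := by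
    by_cases hg3 : (3 : ℤ) ∣ g
    · obtain ⟨g₁, hg₁⟩ := hg3
      have h4 : g₁.toNat % 3 = 1 := by
        refine one_mod_three _ (by omega) fun p hp hpd => ?_
        have h5 : (p : ℤ) ∣ g₁ := by
          have : (p : ℤ) ∣ (g₁.toNat : ℤ) := Int.natCast_dvd_natCast.2 hpd
          rwa [Int.toNat_of_nonneg (by omega)] at this
        have h6 := hgp p hp (by rw [hg₁]; exact Dvd.dvd.mul_left h5 3)
        have h7 : p % 3 ≠ 0 := by
          intro h
          have h8 := (Nat.prime_dvd_prime_iff_eq Nat.prime_three hp).1 (Nat.dvd_of_mod_eq_zero h)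
          rw [← h8] at h5
          push_cast at h5
          omega
        omega
      have h5 : g₁ % 3 = 1 := by omega
      obtain ⟨v, hv⟩ := h2
      refine ⟨v, ?_⟩
      have h6 := hval v
      rw [hg₁] at h6
      have h7 : F v = 3 * (g₁ * F' v) := by rw [h6]; ring
      have h8 : (g₁ * F' v) % 3 = 1 := by omega
      rw [Int.mul_emod, h5] at h8
      omega
    · have h4 : g.toNat % 3 = 1 := by
        refine one_mod_three _ (by omega) fun p hp hpd => ?_
        have h5 : (p : ℤ) ∣ g := by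
          have : (p : ℤ) ∣ (g.toNat : ℤ) := Int.natCast_dvd_natCast.2 hpd
          rwa [Int.toNat_of_nonneg hg.le] at this
        have h6 := hgp p hp h5
        have h7 : p % 3 ≠ 0 := by
          intro h
          have h8 := (Nat.prime_dvd_prime_iff_eq Nat.prime_three hp).1 (Nat.dvd_of_mod_eq_zero h)
          rw [← h8] at h5
          push_cast at h5
          exact hg3 h5
        omega
      have h5 : g % 3 = 1 := by omega
      obtain ⟨v, hv⟩ := hprim 3 Nat.prime_three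
      refine ⟨v, ?_⟩
      have h6 := h3 v
      rw [hval v, Int.mul_emod, h5] at h6
      push_cast at hv
      omega
  have hv₀pos : 0 < F' v₀ := by
    have := hpos' v₀
    omega
  obtain ⟨w₀, hw₀⟩ := exists_coprime hq hprim (F' v₀).natAbs (by omega)
  have hcop : IsCoprime (F' v₀) (F' w₀) := by
    rw [Int.isCoprime_iff_gcd_eq_one]
    by_contra hne
    obtain ⟨p, hp, hpd⟩ := Nat.exists_prime_and_dvd hne
    have h4 : (p : ℤ) ∣ F' v₀ := (Int.natCast_dvd_natCast.2 hpd).trans (Int.gcd_dvd_left ..)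
    have h5 : (p : ℤ) ∣ F' w₀ := (Int.natCast_dvd_natCast.2 hpd).trans (Int.gcd_dvd_right ..)
    exact hw₀ p hp (Int.natCast_dvd.1 h4) h5
  have hΔ : 0 ≤ 4 * F' v₀ * F' w₀ - B' v₀ w₀ ^ 2 := by
    have h4 := hpos' ((-(B' v₀ w₀)) • v₀ + (2 * F' v₀) • w₀)
    rw [hq.F_comb] at h4
    have h5 : (-(B' v₀ w₀)) ^ 2 * F' v₀ + (2 * F' v₀) ^ 2 * F' w₀ +
        -(B' v₀ w₀) * (2 * F' v₀) * B' v₀ w₀ = F' v₀ * (4 * F' v₀ * F' w₀ - B' v₀ w₀ ^ 2) := by ring
    rw [h5] at h4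
    exact nonneg_of_mul_nonneg_right h4 hv₀pos
  rcases hΔ.eq_or_lt with hΔ0 | hΔ0
  · -- the degenerate case: `F' v₀` is a square
    obtain ⟨β, hβ⟩ : ∃ β, B' v₀ w₀ = 2 * β := by
      rcases Int.even_or_odd' (B' v₀ w₀) with ⟨c, hc | hc⟩
      · exact ⟨c, hc⟩
      · exfalso
        rw [hc] at hΔ0
        have : (4 : ℤ) * F' v₀ * F' w₀ = 4 * (c ^ 2 + c) + 1 := by linear_combination -hΔ0
        have h6 : (4 : ℤ) * (F' v₀ * F' w₀) = 4 * (c ^ 2 + c) + 1 := by rw [← this]; ring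
        omega
    have h4 : F' v₀ * F' w₀ = β ^ 2 := by
      rw [hβ] at hΔ0
      linarith
    obtain ⟨a, ha | ha⟩ := Int.sq_of_isCoprime hcop h4
    · refine ⟨v₀, ?_, ?_⟩
      · rw [hval]; exact mul_ne_zero hg.ne' hv₀pos.ne'
      · rw [hval, ha]
        exact hRg.mul (RN.sq a)
    · exfalso
      nlinarith [sq_nonneg a]
  · obtain ⟨v, ℓ, k, hℓ, hℓ3, hk, hv⟩ := exists_prime_value hq hv₀pos hv₀ hcop hΔ0
    refine ⟨v, ?_, ?_⟩
    · rw [hval, hv]
      have h4 : (ℓ : ℤ) ≠ 0 := by exact_mod_cast hℓ.ne_zero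
      exact mul_ne_zero hg.ne' (mul_ne_zero h4 (pow_ne_zero 2 hk))
    · rw [hval, hv]
      exact hRg.mul ((RN.prime hℓ hℓ3).mul (RN.sq k))

end

variable {H : CubLat}

theorem isQuad_hodge (hH : H.IsCubic) : IsQuad (fun v : H.hodge => H.disc v / 2)
    (fun v w : H.hodge => D H v w) where
  add_left x y z := by
    show D H ((x : Fin 23 → ℤ) + y) z = _
    rw [D_add_left]
  comm x y := D_comm hH _ _
  F_add x y := by
    show H.disc ((x : Fin 23 → ℤ) + y) / 2 = H.disc x / 2 + H.disc y / 2 + D H x y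
    have e := disc_comb2 hH 1 1 (x : Fin 23 → ℤ) (y : Fin 23 → ℤ)
    rw [one_smul, one_smul] at e
    obtain ⟨a, ha⟩ := even_disc hH (x : Fin 23 → ℤ)
    obtain ⟨b, hb⟩ := even_disc hH (y : Fin 23 → ℤ)
    rw [e, ha, hb]
    omega
  F_smul n x := by
    show H.disc (n • (x : Fin 23 → ℤ)) / 2 = n ^ 2 * (H.disc x / 2)
    have e := disc_comb2 hH n 0 (x : Fin 23 → ℤ) 0
    rw [zero_smul, add_zero] at e
    obtain ⟨a, ha⟩ := even_disc hH (x : Fin 23 → ℤ)
    rw [e, ha, Int.mul_ediv_cancel_left a (by norm_num)]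
    have : n ^ 2 * (2 * a) + 0 ^ 2 * H.disc 0 + 2 * (n * 0 * D H (x : Fin 23 → ℤ) 0) =
        2 * (n ^ 2 * a) := by ring
    rw [this, Int.mul_ediv_cancel_left _ (by norm_num)]

/-- the local conditions give a twisted K3 surface -/
theorem twisted_of_local (hH : H.IsCubic) (hl : Local H) : Twisted H := by
  obtain ⟨⟨v, hv⟩, h0, x, y, z, hz, h⟩ := exists_norm_value (isQuad_hodge hH)
    (fun v => by
      have := disc_nonneg hH v.2
      show 0 ≤ H.disc v / 2
      omega)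
    (fun p hp h3 => by
      obtain ⟨v, hv, h⟩ := hl.1 p hp h3
      exact ⟨⟨v, hv⟩, h⟩)
    (by
      obtain ⟨v, hv, h⟩ := hl.2
      obtain ⟨c, hc⟩ := even_disc hH v
      refine ⟨⟨v, hv⟩, ?_⟩
      show H.disc v / 2 % 3 = 1 ∨ H.disc v / 2 % 9 = 3
      omega)
    (fun v => by
      have := disc_mod hH (v : Fin 23 → ℤ)
      show H.disc v / 2 % 3 ≠ 2
      omega)
  simp only at h0 h
  obtain ⟨c, hc⟩ := even_disc hH v
  have hc2 : H.disc v / 2 = c := by omega
  rw [hc2] at h0 h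
  have hd : H.disc (z • v) = 2 * (x ^ 2 + 3 * y ^ 2) := by
    have e := disc_comb2 hH z 0 v 0
    rw [zero_smul, add_zero] at e
    rw [e, hc, h]; ring
  refine ⟨z • v, H.isHodge_smul z hv, ?_, x - y, 2 * y, ?_⟩
  · rw [hd, h]
    exact mul_ne_zero (by norm_num) (mul_ne_zero h0 (pow_ne_zero 2 hz))
  · rw [hd]; ring

/-- **The local criterion for a K3 surface.** -/
theorem hasK3_iff_local (hH : H.IsCubic) : H.HasK3 ↔ Local H :=
  ⟨local_of_hasK3 hH, fun h => hasK3_of_local hH (twisted_of_local hH h) h⟩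

/-- the discriminant if there is no K3 surface -/
theorem dvd_of_not (hH : H.IsCubic) (hno : ¬ H.HasK3) {r : ℕ}
    (b : Module.Basis (Fin r) ℤ H.hodge) :
    ∃ p : ℕ, p.Prime ∧ (p = 3 ∨ p % 3 = 2) ∧ (p : ℤ) ^ (r - 1) ∣ discA b := by
  by_contra hcon
  push Not at hcon
  apply hno
  refine (hasK3_iff_local hH).2 ⟨fun p hp h3 => ?_, ?_⟩
  · by_contra h
    push Not at h
    exact hcon p hp (Or.inr h3) (prime_pow_dvd hH b hp (by omega) h)
  · by_contra h
    have h' : ∀ v, H.IsHodge v → ¬ (H.disc v % 3 = 2 ∨ H.disc v % 18 = 6) := fun v hv h2 =>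
      h ⟨v, hv, h2⟩
    have := three_pow_dvd hH b h'
    exact hcon 3 Nat.prime_three (Or.inl rfl) (by exact_mod_cast this)

end Pool.Agent.Q53.LFT
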