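import Pool.Agent.Q168.TW.Inf
import Pool.Agent.Q53.LFT.HilbMain

/-!
# Cubic fourfolds with associated K3 surfaces: one or infinitely many degrees
-/

set_option autoImplicit false

namespace Pool.Agent.Q53.LFT

open Pool.Agent.Q168.TW Pool.Agent.Q168.CF4

open Pool.Agent.Q53.LFY Pool.Agent.Q53.LFY.CubLat Pool.Agent.Q53.LFA Pool.Agent.Q53.LFB

variable {H : CubLat}

/-- a hyperbolic plane in the algebraic Mukai lattice -/
theorem exists_hyp (hH : H.IsCubic) (h : H.HasK3) :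
    ∃ p y : mukai H, F H p = 0 ∧ F H y = 0 ∧ B H p y = 1 := by
  have hl := local_of_hasK3 hH h
  obtain ⟨v, hv, h0, a, b, hab⟩ := twisted_of_local hH hl
  obtain ⟨p₀, hp0, hp1⟩ := exists_isotropic hH hv hab h0
  exact (isQuad hH).exists_hyperbolic hp0 hp1 (loc_of_local hH hl)

/-- the Gram determinant of two classes, modulo `h` -/
def G (H : CubLat) (u v : Fin 23 → ℤ) : ℤ := H.disc u * H.disc v - D H u v ^ 2

theorem disc_proj (hH : H.IsCubic) (u v : Fin 23 → ℤ) :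
    H.disc (H.disc u • v - D H u v • u) = H.disc u * G H u v := by
  have e := disc_comb2 hH (H.disc u) (-(D H u v)) v u
  rw [neg_smul, ← sub_eq_add_neg] at e
  rw [e, D_comm hH v u, G]
  ring

/-- the Gram determinant of `u` and `f u - v` -/
theorem G_sub (hH : H.IsCubic) (f : ℤ) (u v : Fin 23 → ℤ) :
    G H u (f • u - v) = G H u v := by
  have e := disc_comb2 hH f (-1) u v
  rw [neg_one_smul, ← sub_eq_add_neg] at e
  have e2 : D H u (f • u - v) = f * H.disc u - D H u v := by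
    have h1 : f • u - v = f • u + (-1 : ℤ) • v := by rw [neg_one_smul, sub_eq_add_neg]
    rw [h1, D_add_right hH, D_smul_right hH, D_smul_right hH, D_self hH]
    ring
  rw [G, e, e2, G]
  ring

theorem G_comb (hH : H.IsCubic) (m l : ℤ) (u w : Fin 23 → ℤ) :
    G H u (m • w + l • H.h) = m ^ 2 * G H u w := by
  have e2 : D H u (m • w + l • H.h) = m * D H u w := by
    rw [D_add_right hH, D_smul_right hH, D_smul_right hH, D_h_right hH]
    ring
  rw [G, hH.disc_comb, e2, G]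
  ring

/-- the admissible discriminant from a class with a primitive norm -/
theorem adm_of_norm (hH : H.IsCubic) {v : Fin 23 → ℤ} (hv : H.IsHodge v) {a b : ℤ}
    (h : H.disc v = 2 * (a ^ 2 - a * b + b ^ 2)) (h3 : ¬ ((3 : ℤ) ∣ a ∧ (3 : ℤ) ∣ b))
    (hp : ∀ ℓ : ℕ, ℓ.Prime → ℓ % 3 = 2 → ¬ ((ℓ : ℤ) ∣ a ∧ (ℓ : ℤ) ∣ b)) :
    ∃ (w : Fin 23 → ℤ) (m l : ℤ), 0 < m ∧ v = m • w + l • H.h ∧ H.IsHodge w ∧ H.Saturated w ∧
      Admissible (H.disc w) := by
  have hpos : 0 < H.disc v := by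
    rw [h]
    by_contra hcon
    have h2 : a ^ 2 - a * b + b ^ 2 ≤ 0 := by omega
    have h4 : a = 0 := by nlinarith [sq_nonneg (a - b), sq_nonneg a, sq_nonneg b]
    have h5 : b = 0 := by nlinarith [sq_nonneg (a - b), sq_nonneg a, sq_nonneg b]
    apply h3
    rw [h4, h5]
    exact ⟨dvd_zero _, dvd_zero _⟩
  obtain ⟨w, m, l, hm, hsat, hw⟩ := hH.exists_saturated _ hpos
  have hwH : H.IsHodge w := by
    refine H.isHodge_of_smul hm.ne' ?_
    have h1 : m • w = v - l • H.h := by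
      rw [hw]
      abel
    rw [h1]
    exact H.isHodge_sub hv (H.isHodge_smul _ hH.h_hodge)
  have hmw : m ^ 2 * H.disc w = 2 * (a ^ 2 - a * b + b ^ 2) := by
    rw [← h, hw, hH.disc_comb]
  have hw0 : 0 < H.disc w := by
    by_contra hcon
    push Not at hcon
    have : m ^ 2 * H.disc w ≤ 0 := mul_nonpos_of_nonneg_of_nonpos (by positivity) hcon
    rw [hmw, ← h] at this
    linarith
  refine ⟨w, m, l, hm, hw, hwH, hsat, hH.six_lt hwH hw0, ?_, ?_, fun p hpp hp2 hd hmod => ?_⟩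
  · rintro ⟨k, hk⟩
    rw [hk] at hmw
    have h1 : ((2 : ℕ) : ℤ) ∣ a ^ 2 - a * b + b ^ 2 := ⟨m ^ 2 * k, by push_cast; linarith⟩
    exact hp 2 Nat.prime_two (by norm_num) (inert_dvd Nat.prime_two (by norm_num) h1)
  · rintro ⟨k, hk⟩
    rw [hk] at hmw
    have h1 : (9 : ℤ) ∣ 2 * (a ^ 2 - a * b + b ^ 2) := ⟨m ^ 2 * k, by rw [← hmw]; ring⟩
    have h2 : (9 : ℤ) ∣ a ^ 2 - a * b + b ^ 2 := by omega
    obtain ⟨j, hj⟩ := h2
    have h4 : (3 : ℤ) ∣ (a + b) ^ 2 := ⟨3 * j + a * b, by linear_combination hj⟩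
    obtain ⟨i, hi⟩ := Int.prime_three.dvd_of_dvd_pow h4
    have h5 : (3 : ℤ) ∣ a * b := by
      refine ⟨i ^ 2 - j, ?_⟩
      have h6 : a = 3 * i - b := by linarith
      rw [h6] at hj ⊢
      linarith
    apply h3
    rcases Int.prime_three.dvd_or_dvd h5 with h6 | h6
    · exact ⟨h6, by omega⟩
    · exact ⟨by omega, h6⟩
  · have h1 : (p : ℤ) ∣ 2 * (a ^ 2 - a * b + b ^ 2) := by
      rw [← hmw]
      exact Dvd.dvd.mul_left hd _
    have hpp' : Prime (p : ℤ) := Nat.prime_iff_prime_int.1 hpp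
    rcases hpp'.dvd_or_dvd h1 with h2 | h2
    · have h4 : p ∣ 2 := by exact_mod_cast h2
      exact hp2 ((Nat.prime_dvd_prime_iff_eq hpp Nat.prime_two).1 h4)
    · exact hp p hpp hmod (inert_dvd hpp hmod h2)

/-- the first step: the two classes -/
theorem exists_data (hH : H.IsCubic) (h : H.HasK3) (hr : 3 ≤ Module.finrank ℤ H.hodge) :
    ∃ p₀ y₀ w : mukai H, F H p₀ = 0 ∧ B H p₀ y₀ = 1 ∧ B H p₀ w = 1 ∧
      ¬ ((2 : ℤ) ∣ B H A₂ (F H w • p₀ - w) ∧ (2 : ℤ) ∣ B H A₁ (F H w • p₀ - w)) ∧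
      ¬ ((3 : ℤ) ∣ B H A₂ (F H w • p₀ - w) ∧ (3 : ℤ) ∣ B H A₁ (F H w • p₀ - w)) ∧
      0 < H.disc p₀.1.2.2 ∧ 0 < G H p₀.1.2.2 w.1.2.2 := by
  have hq := isQuad hH
  obtain ⟨p₀, y₀, e1, e2, e3⟩ := exists_hyp hH h
  obtain ⟨w, e4, e5, e6⟩ := local_six hq (isA2 hH) e1 e2 e3
  have hu : 0 < H.disc p₀.1.2.2 := by
    refine lt_of_le_of_ne (disc_nonneg hH p₀.2.1) fun h0 => ?_
    have h6 := six_F hH p₀
    rw [e1, ← h0] at h6
    obtain ⟨a, ha⟩ : ∃ a, a = p₀.1.1 := ⟨_, rfl⟩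
    obtain ⟨b, hb⟩ : ∃ b, b = p₀.1.2.1 := ⟨_, rfl⟩
    rw [← ha, ← hb] at h6
    have h7 : a ^ 2 - a * b + b ^ 2 = 0 := by linarith
    have h8 : a = 0 := by nlinarith [sq_nonneg (a - b), sq_nonneg a, sq_nonneg b]
    have h9 : b = 0 := by nlinarith [sq_nonneg (a - b), sq_nonneg a, sq_nonneg b]
    have h10 := three_B hH p₀ y₀
    rw [e3, ← ha, ← hb, h8, h9, disc_zero hH p₀.2.1 h0.symm] at h10
    omega
  by_cases hG : 0 < G H p₀.1.2.2 w.1.2.2
  · exact ⟨p₀, y₀, w, e1, e3, e4, e5, e6, hu, hG⟩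
  -- the degenerate case
  obtain ⟨x, hx, hx2⟩ := exists_ker (n := 2) (by omega) ![hL H, DL hH p₀.1.2.2]
  have hxh : H.ip (x : Fin 23 → ℤ) H.h = 0 := hx2 0
  have hxD : D H p₀.1.2.2 x = 0 := hx2 1
  have hxd : 0 < H.disc (x : Fin 23 → ℤ) := disc_pos_of hH hx hxh
  have hmem : (3 : ℤ) ∣ 0 + 0 - H.ip (x : Fin 23 → ℤ) H.h := by rw [hxh]; exact ⟨0, by norm_num⟩
  obtain ⟨z, hz⟩ : ∃ z : mukai H, z = mk 0 0 x.2 hmem := ⟨_, rfl⟩
  have hBz : B H p₀ z = 0 := by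
    have h6 := three_B hH p₀ z
    rw [hz] at h6 ⊢
    simp only [mk] at h6 ⊢
    rw [hxD] at h6
    omega
  obtain ⟨w', hw'⟩ : ∃ w' : mukai H, w' = w + (6 : ℤ) • z := ⟨_, rfl⟩
  have hFw' : F H w' = F H w + 6 * (6 * F H z + B H w z) := by
    rw [hw', hq.F_add, hq.F_smul, hq.smul_right]; ring
  have key : ∀ y, B H y (F H w' • p₀ - w') = B H y (F H w • p₀ - w) +
      6 * ((6 * F H z + B H w z) * B H y p₀ - B H y z) := by
    intro y
    rw [hq.sub_right, hq.smul_right, hFw', hq.sub_right, hq.smul_right, hw', hq.add_right,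
      hq.smul_right]
    ring
  have hw'v : w'.1.2.2 = w.1.2.2 + (6 : ℤ) • (x : Fin 23 → ℤ) := by
    rw [hw', hz]; rfl
  refine ⟨p₀, y₀, w', e1, e3, ?_, ?_, ?_, hu, ?_⟩
  · rw [hw', hq.add_right, hq.smul_right, e4, hBz]; norm_num
  · rintro ⟨h2, h3⟩
    rw [key] at h2 h3
    have e : ∀ x : ℤ, (2 : ℤ) ∣ 6 * x := fun x => ⟨3 * x, by ring⟩
    exact e5 ⟨(Int.dvd_add_left (e _)).1 h2, (Int.dvd_add_left (e _)).1 h3⟩
  · rintro ⟨h2, h3⟩
    rw [key] at h2 h3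
    have e : ∀ x : ℤ, (3 : ℤ) ∣ 6 * x := fun x => ⟨2 * x, by ring⟩
    exact e6 ⟨(Int.dvd_add_left (e _)).1 h2, (Int.dvd_add_left (e _)).1 h3⟩
  · -- the Gram determinant
    obtain ⟨u, hudef⟩ : ∃ u, u = p₀.1.2.2 := ⟨_, rfl⟩
    obtain ⟨v, hvdef⟩ : ∃ v, v = w.1.2.2 := ⟨_, rfl⟩
    have huH : H.IsHodge u := by rw [hudef]; exact p₀.2.1
    have hvH : H.IsHodge v := by rw [hvdef]; exact w.2.1
    rw [hw'v]
    rw [← hudef, ← hvdef] at hG ⊢
    rw [← hudef] at hu hxD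
    push Not at hG
    obtain ⟨t, ht⟩ : ∃ t : Fin 23 → ℤ, t = H.disc u • v - D H u v • u := ⟨_, rfl⟩
    have htH : H.IsHodge t := by
      rw [ht]
      exact H.isHodge_sub (H.isHodge_smul _ hvH) (H.isHodge_smul _ huH)
    have htd : H.disc t = H.disc u * G H u v := by rw [ht]; exact disc_proj hH u v
    have ht0 : H.disc t = 0 := by
      refine le_antisymm ?_ (disc_nonneg hH htH)
      rw [htd]
      exact mul_nonpos_of_nonneg_of_nonpos hu.le hG
    have hG0 : G H u v = 0 := by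
      rw [ht0] at htd
      exact (mul_eq_zero.1 htd.symm).resolve_left hu.ne'
    have hvx : D H v x = 0 := by
      have h7 := disc_zero hH htH ht0 (x : Fin 23 → ℤ)
      have h8 : D H t x = H.disc u * D H v x - D H u v * D H u x := by
        have e9 : t = H.disc u • v + (-(D H u v)) • u := by
          rw [ht, neg_smul, sub_eq_add_neg]
        rw [e9, D_add_left, D_smul_left, D_smul_left]
        ring
      rw [h7, hxD, mul_zero, sub_zero] at h8
      exact (mul_eq_zero.1 h8.symm).resolve_left hu.ne'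
    have e10 := disc_comb2 hH 1 6 v (x : Fin 23 → ℤ)
    rw [one_smul, hvx] at e10
    have e11 : D H u (v + (6 : ℤ) • (x : Fin 23 → ℤ)) = D H u v := by
      rw [D_add_right hH, D_smul_right hH, hxD]; ring
    rw [G] at hG0
    rw [G, e10, e11]
    have e12 : H.disc u * (1 ^ 2 * H.disc v + 6 ^ 2 * H.disc (x : Fin 23 → ℤ) + 2 * (1 * 6 * 0)) -
        D H u v ^ 2 = (H.disc u * H.disc v - D H u v ^ 2) +
          36 * (H.disc u * H.disc (x : Fin 23 → ℤ)) := by ring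
    rw [e12, hG0]
    have := mul_pos hu hxd
    linarith

/-- **Infinitely many discriminants.** -/
theorem exists_large (hH : H.IsCubic) (h : H.HasK3) (hr : 3 ≤ Module.finrank ℤ H.hodge)
    (N : ℤ) : ∃ d : ℤ, N < d ∧ InC H d ∧ Admissible d := by
  have hq := isQuad hH
  obtain ⟨p₀, y₀, w, e1, e2, e3, e4, e5, e6, e7⟩ := exists_data hH h hr
  obtain ⟨u, hu⟩ : ∃ u, u = p₀.1.2.2 := ⟨_, rfl⟩
  obtain ⟨v, hv⟩ : ∃ v, v = w.1.2.2 := ⟨_, rfl⟩
  rw [← hu] at e6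
  rw [← hu, ← hv] at e7
  have hvH : H.IsHodge v := by rw [hv]; exact w.2.1
  obtain ⟨K, hK⟩ : ∃ K : ℤ, K = 2 * |D H u v| + G H u v * |N| + 1 := ⟨_, rfl⟩
  obtain ⟨w', α, β, f1, f2, f3, f4, f5⟩ := prim_family hq (isA2 hH) e1 e2 (negdef hH) e3 e4 e5 K
  have hvec : (F H w' • p₀ - w').1.2.2 = F H w' • u - v := by
    have h1 : w'.1.2.2 = v := by
      rw [f1, hv]
      show w.1.2.2 + (α • (0 : Fin 23 → ℤ) + β • (0 : Fin 23 → ℤ)) = w.1.2.2
      rw [smul_zero, smul_zero, add_zero, add_zero]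
    show F H w' • p₀.1.2.2 - w'.1.2.2 = _
    rw [h1, hu]
  have hiso := refl_isotropic hq e1 f2
  obtain ⟨p, hp⟩ : ∃ p, p = F H w' • p₀ - w' := ⟨_, rfl⟩
  rw [← hp] at hvec hiso f4 f5
  simp only [B_A₁ hH, B_A₂ hH, dvd_neg] at f4 f5
  have h7 := six_F hH p
  rw [hiso] at h7
  obtain ⟨w₁, m, l, g1, g2, g3, g4, g5⟩ := adm_of_norm hH p.2.1 (a := p.1.1) (b := p.1.2.1)
    (by linarith) f4 f5
  refine ⟨H.disc w₁, ?_, ⟨w₁, g3, g4, rfl⟩, g5⟩
  rw [hvec] at g2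
  -- the Gram determinants
  have i1 : G H u v = m ^ 2 * G H u w₁ := by
    rw [← G_sub hH (F H w') u v, g2, G_comb hH]
  have i2 : m ^ 2 ≤ G H u v := by
    have : 0 < G H u w₁ := by
      by_contra hcon
      push Not at hcon
      have : m ^ 2 * G H u w₁ ≤ 0 := mul_nonpos_of_nonneg_of_nonpos (by positivity) hcon
      linarith
    rw [i1]
    nlinarith [sq_nonneg m]
  have i3 : m ^ 2 * H.disc w₁ = F H w' ^ 2 * H.disc u + H.disc v - 2 * F H w' * D H u v := by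
    rw [← hH.disc_comb m l, ← g2]
    have e := disc_comb2 hH (F H w') (-1) u v
    rw [neg_one_smul, ← sub_eq_add_neg] at e
    rw [e]; ring
  obtain ⟨f, hf⟩ : ∃ f, f = F H w' := ⟨_, rfl⟩
  rw [← hf] at i3 f3
  have i4 : 0 ≤ H.disc v := disc_nonneg hH hvH
  have i5 : D H u v ≤ |D H u v| := le_abs_self _
  have i6 : 0 ≤ |D H u v| := abs_nonneg _
  have i7 : 0 ≤ G H u v * |N| := mul_nonneg e7.le (abs_nonneg N)
  have i8 : 1 ≤ f := by omega
  have i9 : f ^ 2 * 1 ≤ f ^ 2 * H.disc u := mul_le_mul_of_nonneg_left (by omega) (sq_nonneg f)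
  have i10 : f * (G H u v * |N| + 1) < f * (f - 2 * |D H u v|) :=
    mul_lt_mul_of_pos_left (by omega) (by omega)
  have i11 : G H u v * |N| < m ^ 2 * H.disc w₁ := by
    rw [i3]
    nlinarith
  have i12 : 0 < H.disc w₁ := by
    by_contra hcon
    push Not at hcon
    have : m ^ 2 * H.disc w₁ ≤ 0 := mul_nonpos_of_nonneg_of_nonpos (by positivity) hcon
    linarith
  have i13 : G H u v * |N| < G H u v * H.disc w₁ :=
    lt_of_lt_of_le i11 (mul_le_mul_of_nonneg_right i2 i12.le)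
  have i14 : |N| < H.disc w₁ := lt_of_mul_lt_mul_left i13 e7.le
  exact lt_of_le_of_lt (le_abs_self N) i14

/-- rank two: only one discriminant -/
theorem unique_of_two (hH : H.IsCubic) (hr : Module.finrank ℤ H.hodge = 2) {d d' : ℤ}
    (hd : InC H d) (hd' : InC H d') (h0 : 0 < d) (h0' : 0 < d') : d = d' := by
  obtain ⟨v, hv, hsv, hdv⟩ := hd
  obtain ⟨w, hw, hsw, hdw⟩ := hd'
  obtain ⟨c, hc0, hc⟩ : ∃ c : Fin 3 → ℤ, c ≠ 0 ∧ c 0 • H.h + c 1 • v + c 2 • w = 0 := by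
    have hnot : ¬ LinearIndependent ℤ
        ![(⟨H.h, hH.h_hodge⟩ : H.hodge), ⟨v, hv⟩, ⟨w, hw⟩] := by
      intro hli
      have := hli.fintype_card_le_finrank
      rw [hr, Fintype.card_fin] at this
      omega
    rw [Fintype.not_linearIndependent_iff] at hnot
    obtain ⟨g, hg, i, hi⟩ := hnot
    refine ⟨g, fun h => hi (by rw [h]; rfl), ?_⟩
    have := congrArg (Subtype.val) hg
    simpa [Fin.sum_univ_three] using this
  have key : ∀ {x y : Fin 23 → ℤ} {a b k : ℤ}, a • H.h + b • x + k • y = 0 → H.Saturated x →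
      (H.disc y ≠ 0) → (H.disc x ≠ 0) → (a ≠ 0 ∨ b ≠ 0 ∨ k ≠ 0) →
      ∃ β : ℤ, H.disc y = β ^ 2 * H.disc x := by
    intro x y a b k he hs hy hx hne
    have hk : k ≠ 0 := by
      intro hk
      rw [hk, zero_smul, add_zero] at he
      have h1 := congrArg (fun t => D H t x) he
      simp only [D_add_left, D_smul_left, D_h hH, D_self hH, D_zero_left] at h1
      have hb : b = 0 := by
        have : b * H.disc x = 0 := by linarith
        exact (mul_eq_zero.1 this).resolve_right hx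
      rw [hb, zero_smul, add_zero] at he
      have h2 := congrArg (fun t => H.ip t H.h) he
      simp only [ip_smul_left, hH.h_self, ip_zero_left] at h2
      have ha : a = 0 := by omega
      rcases hne with h | h | h
      · exact h ha
      · exact h hb
      · exact h hk
    obtain ⟨a', b', hab⟩ := hs y k (-a) (-b) hk (by
      have : k • y = 0 - (a • H.h + b • x) := by rw [← he]; abel
      rw [this]
      module)
    refine ⟨b', ?_⟩
    rw [hab, add_comm, hH.disc_comb]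
  have hne : c 0 ≠ 0 ∨ c 1 ≠ 0 ∨ c 2 ≠ 0 := by
    by_contra hcon
    push Not at hcon
    apply hc0
    funext i
    fin_cases i
    · exact hcon.1
    · exact hcon.2.1
    · exact hcon.2.2
  obtain ⟨β, hβ⟩ := key hc hsv (by omega) (by omega) hne
  obtain ⟨γ, hγ⟩ := key (x := w) (y := v) (a := c 0) (b := c 2) (k := c 1)
    (by rw [← hc]; abel) hsw (by omega) (by omega) (by tauto)
  rw [hdv, hdw] at hβ hγ
  have h1 : β ^ 2 * γ ^ 2 = 1 := by
    have : d' * (β ^ 2 * γ ^ 2) = d' * 1 := by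
      calc d' * (β ^ 2 * γ ^ 2) = β ^ 2 * (γ ^ 2 * d') := by ring
        _ = d' * 1 := by rw [← hγ, ← hβ, mul_one]
    exact mul_left_cancel₀ h0'.ne' this
  have h2 : β ^ 2 = 1 := by
    have h3 : 0 ≤ β ^ 2 := sq_nonneg β
    have h4 : β ^ 2 ∣ 1 := ⟨γ ^ 2, h1.symm⟩
    exact Int.eq_one_of_dvd_one h3 h4
  rw [h2, one_mul] at hβ
  exact hβ.symm

end Pool.Agent.Q53.LFT
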