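import Pool.Agent.Q168.TW.Prim
import Pool.Agent.Q53.LFB.C18

/-!
# The algebraic Mukai lattice of a cubic fourfold

It consists of the triples `(a, b, v)` with a Hodge class `v` and integers with `a + b ≡ v.h` modulo `3`;
`6 F = 2 (a^2 - a b + b^2) - disc v` is (half of) the Mukai form.
-/

set_option autoImplicit false

namespace Pool.Agent.Q53.LFT

open Pool.Agent.Q168.TW Pool.Agent.Q168.CF4

open Pool.Agent.Q53.LFY Pool.Agent.Q53.LFY.CubLat Pool.Agent.Q53.LFA Pool.Agent.Q53.LFB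

variable (H : CubLat)

/-- the algebraic Mukai lattice -/
def mukai : AddSubgroup (ℤ × ℤ × (Fin 23 → ℤ)) where
  carrier := {m | H.IsHodge m.2.2 ∧ (3 : ℤ) ∣ m.1 + m.2.1 - H.ip m.2.2 H.h}
  zero_mem' := ⟨H.isHodge_zero, by simp [ip_zero_left]⟩
  add_mem' := by
    rintro ⟨a, b, v⟩ ⟨a', b', v'⟩ ⟨h1, h2⟩ ⟨h3, h4⟩
    refine ⟨H.isHodge_add h1 h3, ?_⟩
    simp only [Prod.mk_add_mk, ip_add_left] at h2 h4 ⊢
    omega
  neg_mem' := by
    rintro ⟨a, b, v⟩ ⟨h1, h2⟩
    have e : -v = (-1 : ℤ) • v := by rw [neg_one_smul]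
    refine ⟨?_, ?_⟩
    · show H.IsHodge (-v)
      rw [e]
      exact H.isHodge_smul _ h1
    · show (3 : ℤ) ∣ -a + -b - H.ip (-v) H.h
      simp only at h2
      rw [e, ip_smul_left]
      omega

/-- half of the Mukai form -/
def F (m : mukai H) : ℤ :=
  (2 * (m.1.1 ^ 2 - m.1.1 * m.1.2.1 + m.1.2.1 ^ 2) - H.disc m.1.2.2) / 6

/-- the Mukai pairing -/
def B (m n : mukai H) : ℤ :=
  (2 * (m.1.1 * n.1.1) - m.1.1 * n.1.2.1 - m.1.2.1 * n.1.1 + 2 * (m.1.2.1 * n.1.2.1) -
    D H m.1.2.2 n.1.2.2) / 3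

variable {H}

theorem six_F (hH : H.IsCubic) (m : mukai H) :
    6 * F H m = 2 * (m.1.1 ^ 2 - m.1.1 * m.1.2.1 + m.1.2.1 ^ 2) - H.disc m.1.2.2 := by
  refine Int.mul_ediv_cancel' ?_
  obtain ⟨⟨a, b, v⟩, h1, h2⟩ := m
  simp only at h2 ⊢
  obtain ⟨k, hk⟩ := h2
  obtain ⟨c, hc⟩ := hH.char v
  have h3 : H.disc v = 3 * H.ip v v - H.ip v H.h ^ 2 := by rw [disc, hH.comm H.h v]
  obtain ⟨s, hs⟩ : ∃ s, s = H.ip v H.h := ⟨_, rfl⟩
  obtain ⟨n, hn⟩ : ∃ n, n = H.ip v v := ⟨_, rfl⟩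
  rw [← hs] at hk
  rw [← hs, ← hn] at hc h3
  obtain ⟨t, ht⟩ := Int.even_mul_succ_self s
  have h4 : a = s + 3 * k - b := by linarith
  have h5 : n = s + 2 * c := by linarith
  rw [h3, h4, h5]
  refine ⟨2 * k * s + 3 * k ^ 2 - (s + 3 * k) * b + b ^ 2 + (t - s) - c, ?_⟩
  have h6 : 6 * t = 3 * (s * (s + 1)) := by rw [ht]; ring
  linear_combination -h6

theorem three_B (_hH : H.IsCubic) (m n : mukai H) :
    3 * B H m n = 2 * (m.1.1 * n.1.1) - m.1.1 * n.1.2.1 - m.1.2.1 * n.1.1 +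
      2 * (m.1.2.1 * n.1.2.1) - D H m.1.2.2 n.1.2.2 := by
  refine Int.mul_ediv_cancel' ?_
  obtain ⟨⟨a, b, v⟩, h1, h2⟩ := m
  obtain ⟨⟨a', b', v'⟩, h1', h2'⟩ := n
  simp only at h2 h2' ⊢
  obtain ⟨k, hk⟩ := h2
  obtain ⟨k', hk'⟩ := h2'
  obtain ⟨s, hs⟩ : ∃ s, s = H.ip v H.h := ⟨_, rfl⟩
  obtain ⟨s', hs'⟩ : ∃ s', s' = H.ip v' H.h := ⟨_, rfl⟩
  rw [D, ← hs, ← hs']
  rw [← hs] at hk
  rw [← hs'] at hk'
  have h4 : a = s + 3 * k - b := by linarith
  have h4' : a' = s' + 3 * k' - b' := by linarith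
  rw [h4, h4']
  exact ⟨s * s' + 2 * s * k' + 2 * k * s' + 6 * k * k' - s * b' - s' * b - 3 * k * b' - 3 * b * k'
    + 2 * b * b' - H.ip v v', by ring⟩

theorem isQuad (hH : H.IsCubic) : IsQuad (F H) (B H) where
  add_left x y z := by
    have h1 := three_B hH (x + y) z
    have h2 := three_B hH x z
    have h3 := three_B hH y z
    simp only [AddSubgroup.coe_add, Prod.fst_add, Prod.snd_add, D_add_left] at h1
    have : 3 * B H (x + y) z = 3 * (B H x z + B H y z) := by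
      rw [mul_add, h1, h2, h3]; ring
    exact mul_left_cancel₀ (by norm_num) this
  comm x y := by
    have h1 := three_B hH x y
    have h2 := three_B hH y x
    rw [D_comm hH] at h1
    have : 3 * B H x y = 3 * B H y x := by rw [h1, h2]; ring
    exact mul_left_cancel₀ (by norm_num) this
  F_add x y := by
    have h1 := six_F hH (x + y)
    have h2 := six_F hH x
    have h3 := six_F hH y
    have h4 := three_B hH x y
    have h5 := disc_comb2 hH 1 1 x.1.2.2 y.1.2.2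
    rw [one_smul, one_smul] at h5
    simp only [AddSubgroup.coe_add, Prod.fst_add, Prod.snd_add] at h1
    have : 6 * F H (x + y) = 6 * (F H x + F H y + B H x y) := by
      rw [h1, h5]
      linear_combination -h2 - h3 - 2 * h4
    exact mul_left_cancel₀ (by norm_num) this
  F_smul n x := by
    have h1 := six_F hH (n • x)
    have h2 := six_F hH x
    have h5 := disc_comb2 hH n 0 x.1.2.2 0
    rw [smul_zero, add_zero] at h5
    simp only [AddSubgroup.coe_zsmul, Prod.smul_fst, Prod.smul_snd, smul_eq_mul] at h1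
    have : 6 * F H (n • x) = 6 * (n ^ 2 * F H x) := by
      rw [h1, h5]
      linear_combination -n ^ 2 * h2
    exact mul_left_cancel₀ (by norm_num) this

/-- the first generator of the lattice of type `A₂` -/
def A₁ : mukai H := ⟨(1, 2, 0), H.isHodge_zero, by simp [ip_zero_left]⟩

/-- the second generator of the lattice of type `A₂` -/
def A₂ : mukai H := ⟨(-2, -1, 0), H.isHodge_zero, by simp [ip_zero_left]⟩

theorem B_A₁ (hH : H.IsCubic) (m : mukai H) : B H A₁ m = m.1.2.1 := by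
  have h1 := three_B hH A₁ m
  simp only [A₁, D_zero_left] at h1
  have : 3 * B H A₁ m = 3 * m.1.2.1 := by
    simp only [A₁]
    rw [h1]; ring
  exact mul_left_cancel₀ (by norm_num) this

theorem B_A₂ (hH : H.IsCubic) (m : mukai H) : B H A₂ m = - m.1.1 := by
  have h1 := three_B hH A₂ m
  simp only [A₂, D_zero_left] at h1
  have : 3 * B H A₂ m = 3 * - m.1.1 := by
    simp only [A₂]
    rw [h1]; ring
  exact mul_left_cancel₀ (by norm_num) this

theorem isA2 (hH : H.IsCubic) : IsA2 (F H) (B H) A₁ A₂ where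
  one := by
    have h1 := six_F hH A₁
    have h2 : H.disc 0 = 0 := by rw [← D_self hH, D_zero_left]
    simp only [A₁, h2] at h1
    have : 6 * F H A₁ = 6 * 1 := by
      simp only [A₁]
      rw [h1]; norm_num
    exact mul_left_cancel₀ (by norm_num) this
  two := by
    have h1 := six_F hH A₂
    have h2 : H.disc 0 = 0 := by rw [← D_self hH, D_zero_left]
    simp only [A₂, h2] at h1
    have : 6 * F H A₂ = 6 * 1 := by
      simp only [A₂]
      rw [h1]; norm_num
    exact mul_left_cancel₀ (by norm_num) this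
  cross := by
    rw [B_A₁ hH]
    rfl

theorem negdef (hH : H.IsCubic) (x : mukai H) (h1 : B H A₁ x = 0) (h2 : B H A₂ x = 0)
    (h3 : F H x = 0) (y : mukai H) : B H x y = 0 := by
  rw [B_A₁ hH] at h1
  rw [B_A₂ hH, neg_eq_zero] at h2
  have h4 := six_F hH x
  rw [h3, h1, h2] at h4
  have h5 : H.disc x.1.2.2 = 0 := by linarith
  have h6 := disc_zero hH x.2.1 h5 y.1.2.2
  have h7 := three_B hH x y
  rw [h1, h2, h6] at h7
  omega

end Pool.Agent.Q53.LFT
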