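import Pool.Agent.Q53.LFT.Fam

/-!
# The admissible discriminants are twice the primitive norms
-/

set_option autoImplicit false

namespace Pool.Agent.Q53.LFT

open Pool.Agent.Q168.TW Pool.Agent.Q168.CF4

open Pool.Agent.Q53.LFY Pool.Agent.Q53.LFY.CubLat Pool.Agent.Q53.LFA Pool.Agent.Q53.LFB

/-- roots of `x^2 - x + 1` modulo `n` -/
theorem exists_root_mod (n : ℕ) (hn : n ≠ 0) (h9 : ¬ 9 ∣ n)
    (hp : ∀ p : ℕ, p.Prime → p ∣ n → p % 3 ≠ 2) : ∃ x : ℤ, (n : ℤ) ∣ x ^ 2 - x + 1 := by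
  induction n using induction_on_primes with
  | zero => exact absurd rfl hn
  | one => exact ⟨0, by simp⟩
  | prime_mul p a hpp ih =>
    have ha : a ≠ 0 := fun h => hn (by rw [h, mul_zero])
    obtain ⟨x, q, hq⟩ := ih ha (fun h => h9 (Dvd.dvd.mul_left h p))
      fun r hr hra => hp r hr (Dvd.dvd.mul_left hra p)
    have h2 := hp p hpp (dvd_mul_right p a)
    have hp' : Prime (p : ℤ) := Nat.prime_iff_prime_int.1 hpp
    have crt : ∀ r : ℤ, (p : ℤ) ∣ r ^ 2 - r + 1 → IsCoprime (a : ℤ) p →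
        ∃ x : ℤ, ((p * a : ℕ) : ℤ) ∣ x ^ 2 - x + 1 := by
      rintro r hr ⟨u, v, huv⟩
      refine ⟨x + a * (u * (r - x)), ?_⟩
      push_cast
      have h3 : (a : ℤ) ∣ (x + a * (u * (r - x))) ^ 2 - (x + a * (u * (r - x))) + 1 := by
        refine ⟨q + (u * (r - x)) * (2 * x + a * (u * (r - x)) - 1), ?_⟩
        linear_combination hq
      have h4 : (p : ℤ) ∣ (x + a * (u * (r - x))) ^ 2 - (x + a * (u * (r - x))) + 1 := by
        have h5 : x + a * (u * (r - x)) - r = p * (v * (x - r)) := by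
          linear_combination (r - x) * huv
        obtain ⟨y, hy⟩ : ∃ y, y = x + a * (u * (r - x)) := ⟨_, rfl⟩
        rw [← hy] at h5 ⊢
        have h6 : y ^ 2 - y + 1 = (r ^ 2 - r + 1) + (y - r) * (y + r - 1) := by ring
        rw [h6, h5]
        exact dvd_add hr ⟨v * (x - r) * (y + r - 1), by ring⟩
      exact (IsCoprime.mul_dvd (IsCoprime.symm ⟨u, v, huv⟩) h4 h3)
    by_cases h3 : p = 3
    · refine crt 2 (by rw [h3]; norm_num) ?_
      refine (hp'.coprime_iff_not_dvd.2 ?_).symm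
      rintro h4
      apply h9
      have h5 : p ∣ a := by exact_mod_cast h4
      rw [h3] at h5 ⊢
      obtain ⟨b, hb⟩ := h5
      exact ⟨b, by rw [hb]; ring⟩
    have h1 : p % 3 = 1 := by
      have : p % 3 ≠ 0 := fun h => h3 ((Nat.prime_dvd_prime_iff_eq Nat.prime_three hpp).1
        (Nat.dvd_of_mod_eq_zero h)).symm
      omega
    by_cases hpa : p ∣ a
    · obtain ⟨b, hb⟩ : (p : ℤ) ∣ a := by exact_mod_cast hpa
      have hcop : IsCoprime (p : ℤ) (2 * x - 1) := by
        refine hp'.coprime_iff_not_dvd.2 fun h4 => h3 ?_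
        have h5 : (p : ℤ) ∣ 3 := by
          have : (3 : ℤ) = 4 * (a * q) - (2 * x - 1) * (2 * x - 1) := by
            rw [← hq]; ring
          rw [this]
          exact dvd_sub (Dvd.dvd.mul_left (Dvd.dvd.mul_right ⟨b, hb⟩ q) 4) (Dvd.dvd.mul_left h4 _)
        have h6 : p ∣ 3 := by exact_mod_cast h5
        exact (Nat.prime_dvd_prime_iff_eq hpp Nat.prime_three).1 h6
      obtain ⟨v, u, huv⟩ := hcop
      -- `v p + u (2 x - 1) = 1`
      refine ⟨x + a * (-(q * u)), ?_⟩
      push_cast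
      refine ⟨q * v + b * (q * u) ^ 2, ?_⟩
      have h5 : (x + a * (-(q * u))) ^ 2 - (x + a * (-(q * u))) + 1 =
          (x ^ 2 - x + 1) + a * (-(q * u)) * (2 * x - 1) + a * (a * (q * u) ^ 2) := by ring
      rw [h5, hq]
      linear_combination (-(a : ℤ) * q) * huv + (a * (q * u) ^ 2) * hb
    · obtain ⟨r, hr⟩ := exists_root hpp h1
      refine crt r hr (hp'.coprime_iff_not_dvd.2 ?_).symm
      exact_mod_cast hpa

/-- reduction of the binary forms of discriminant `-3` -/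
theorem reduce (N : ℕ) : ∀ n k m : ℤ, k.natAbs ≤ N → 0 < n → 4 * n * m - k ^ 2 = 3 →
    ∃ a b c e : ℤ, a * e - b * c = 1 ∧ n = a ^ 2 - a * b + b ^ 2 ∧ m = c ^ 2 - c * e + e ^ 2 ∧
      k = 2 * a * c - a * e - b * c + 2 * b * e := by
  induction N with
  | zero =>
    intro n k m hk hn h
    have : k = 0 := by omega
    rw [this] at h
    have : 4 * (n * m) = 3 := by linarith
    omega
  | succ N ih =>
    intro n k m hk hn h
    have hm : 0 < m := by
      by_contra hcon
      have : n * m ≤ 0 := mul_nonpos_of_nonneg_of_nonpos hn.le (by omega)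
      nlinarith [sq_nonneg k]
    by_cases hk1 : k.natAbs ≤ 1
    · have hk2 : k = 0 ∨ k = 1 ∨ k = -1 := by omega
      have hnm : k = 1 ∨ k = -1 := by
        rcases hk2 with h0 | h0 | h0
        · rw [h0] at h
          have : 4 * (n * m) = 3 := by linarith
          omega
        · exact Or.inl h0
        · exact Or.inr h0
      have hnm1 : n * m = 1 := by
        rcases hnm with h0 | h0 <;> rw [h0] at h <;> linarith
      have hn1 : n = 1 := Int.eq_one_of_dvd_one hn.le ⟨m, hnm1.symm⟩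
      have hm1 : m = 1 := Int.eq_one_of_dvd_one hm.le ⟨n, by rw [mul_comm]; exact hnm1.symm⟩
      rcases hnm with h0 | h0
      · exact ⟨1, 0, 1, 1, by norm_num, by rw [hn1]; norm_num, by rw [hm1]; norm_num,
          by rw [h0]; norm_num⟩
      · exact ⟨1, 0, 0, 1, by norm_num, by rw [hn1]; norm_num, by rw [hm1]; norm_num,
          by rw [h0]; norm_num⟩
    · have hmin : n < |k| ∨ m < |k| := by
        by_contra hcon
        push Not at hcon
        have h1 : |k| * |k| ≤ n * m := mul_le_mul hcon.1 hcon.2 (abs_nonneg k) hn.le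
        have h2 : |k| * |k| = k ^ 2 := by rw [← sq_abs]; ring
        have h3 : 2 ≤ |k| := by rw [Int.abs_eq_natAbs]; omega
        nlinarith
      rcases le_or_gt 0 k with hk0 | hk0
      · rw [abs_of_nonneg hk0] at hmin
        rcases hmin with h1 | h1
        · obtain ⟨a, b, c, e, h2, h3, h4, h5⟩ := ih n (k - 2 * n) (m - k + n) (by omega) hn
            (by linear_combination h)
          exact ⟨a, b, c + a, e + b, by linear_combination h2, h3,
            by linear_combination h4 + h5 + h3, by linear_combination h5 + 2 * h3⟩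
        · have h0 : 0 < n - k + m := by
            by_contra hcon
            have e1 : (n + m) ^ 2 ≤ k ^ 2 := pow_le_pow_left₀ (by omega) (by omega) 2
            have e2 := sq_nonneg (n - m)
            linarith [sq_nonneg (n - m), show (n + m) ^ 2 = (n - m) ^ 2 + 4 * n * m by ring]
          obtain ⟨a, b, c, e, h2, h3, h4, h5⟩ := ih (n - k + m) (k - 2 * m) m (by omega) h0
            (by linear_combination h)
          exact ⟨a + c, b + e, c, e, by linear_combination h2,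
            by linear_combination h3 + h5 + h4, h4, by linear_combination h5 + 2 * h4⟩
      · rw [abs_of_neg hk0] at hmin
        rcases hmin with h1 | h1
        · obtain ⟨a, b, c, e, h2, h3, h4, h5⟩ := ih n (k + 2 * n) (m + k + n) (by omega) hn
            (by linear_combination h)
          exact ⟨a, b, c - a, e - b, by linear_combination h2, h3,
            by linear_combination h4 - h5 + h3, by linear_combination h5 - 2 * h3⟩
        · have h0 : 0 < n + k + m := by
            by_contra hcon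
            have e1 : (n + m) ^ 2 ≤ (-k) ^ 2 := pow_le_pow_left₀ (by omega) (by omega) 2
            have e2 : (-k) ^ 2 = k ^ 2 := by ring
            linarith [sq_nonneg (n - m), show (n + m) ^ 2 = (n - m) ^ 2 + 4 * n * m by ring]
          obtain ⟨a, b, c, e, h2, h3, h4, h5⟩ := ih (n + k + m) (k + 2 * m) m (by omega) h0
            (by linear_combination h)
          exact ⟨a - c, b - e, c, e, by linear_combination h2,
            by linear_combination h3 - h5 + h4, h4, by linear_combination h5 - 2 * h4⟩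

/-- primitive representations by the norm form of the Eisenstein integers -/
theorem exists_prim_norm (n : ℕ) (hn : n ≠ 0) (h9 : ¬ 9 ∣ n)
    (hp : ∀ p : ℕ, p.Prime → p ∣ n → p % 3 ≠ 2) :
    ∃ a b : ℤ, IsCoprime a b ∧ (n : ℤ) = a ^ 2 - a * b + b ^ 2 := by
  obtain ⟨x, m, hm⟩ := exists_root_mod n hn h9 hp
  obtain ⟨a, b, c, e, h1, h2, -, -⟩ := reduce (2 * x - 1).natAbs n (2 * x - 1) m le_rfl
    (by positivity) (by linear_combination -4 * hm)
  exact ⟨a, b, ⟨e, -c, by linear_combination h1⟩, h2⟩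

/-- the admissible numbers are twice the primitive norms -/
theorem admissible_norm {d : ℤ} (h : Admissible d) (h2 : Even d) :
    ∃ c e : ℤ, IsCoprime c e ∧ d = 2 * (c ^ 2 - c * e + e ^ 2) ∧ e ≠ 2 * c := by
  obtain ⟨n, hn⟩ : ∃ n : ℕ, d = 2 * n := by
    obtain ⟨m, hm⟩ := h2
    exact ⟨m.toNat, by have := h.1; omega⟩
  obtain ⟨a, b, hab, hN⟩ := exists_prim_norm n (by have := h.1; omega)
    (fun ⟨j, hj⟩ => h.2.2.1 ⟨2 * j, by rw [hn, hj]; push_cast; ring⟩) (fun p hp hpn h3 => by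
      by_cases hp2 : p = 2
      · obtain ⟨j, hj⟩ := hpn
        exact h.2.1 ⟨j, by rw [hn, hj, hp2]; push_cast; ring⟩
      · obtain ⟨j, hj⟩ := hpn
        exact h.2.2.2 p hp hp2 ⟨2 * j, by rw [hn, hj]; push_cast; ring⟩ h3)
  refine ⟨a, b, hab, by rw [hn, hN], fun hb => ?_⟩
  rw [hb] at hab hN
  have h3 : IsUnit a := by
    have : IsCoprime a a := (IsCoprime.of_mul_right_right hab)
    exact isCoprime_self.1 this
  rcases Int.isUnit_iff.1 h3 with h4 | h4 <;> rw [h4] at hN <;> have := h.1 <;> omega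

theorem admissible_of_norm {d c e : ℤ} (h : IsCoprime c e) (hd : d = 2 * (c ^ 2 - c * e + e ^ 2))
    (h6 : 6 < d) : Admissible d := by
  have key : ∀ p : ℤ, Prime p → ¬ (p ∣ c ∧ p ∣ e) := by
    rintro p hp ⟨h1, h2⟩
    obtain ⟨u, v, huv⟩ := h
    apply hp.not_isUnit
    apply isUnit_of_dvd_one
    rw [← huv]
    exact dvd_add (Dvd.dvd.mul_left h1 u) (Dvd.dvd.mul_left h2 v)
  refine ⟨h6, ?_, ?_, fun p hp hp2 hpd h3 => ?_⟩
  · rintro ⟨k, hk⟩
    have h1 : ((2 : ℕ) : ℤ) ∣ c ^ 2 - c * e + e ^ 2 := ⟨k, by push_cast; linarith⟩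
    exact key 2 Int.prime_two (by exact_mod_cast inert_dvd Nat.prime_two (by norm_num) h1)
  · rintro ⟨k, hk⟩
    have h2 : (9 : ℤ) ∣ c ^ 2 - c * e + e ^ 2 := by omega
    obtain ⟨j, hj⟩ := h2
    have h4 : (3 : ℤ) ∣ (c + e) ^ 2 := ⟨3 * j + c * e, by linear_combination hj⟩
    obtain ⟨i, hi⟩ := Int.prime_three.dvd_of_dvd_pow h4
    have h5 : (3 : ℤ) ∣ c * e := by
      refine ⟨i ^ 2 - j, ?_⟩
      have h6 : c = 3 * i - e := by linarith
      rw [h6] at hj ⊢
      linarith
    apply key 3 Int.prime_three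
    rcases Int.prime_three.dvd_or_dvd h5 with h6 | h6
    · exact ⟨h6, by omega⟩
    · exact ⟨by omega, h6⟩
  · have hpp' : Prime (p : ℤ) := Nat.prime_iff_prime_int.1 hp
    rw [hd] at hpd
    rcases hpp'.dvd_or_dvd hpd with h4 | h4
    · have h5 : p ∣ 2 := by exact_mod_cast h4
      exact hp2 ((Nat.prime_dvd_prime_iff_eq hp Nat.prime_two).1 h5)
    · exact key p hpp' (inert_dvd hp h3 h4)

variable {H : CubLat}

/-- **The main theorem**: admissible discriminants in the same residue class. -/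
theorem main (hH : H.IsCubic) (hr : 3 ≤ Module.finrank ℤ H.hodge) {d : ℤ} (hd : InC H d)
    (ha : Admissible d) {M : ℤ} (hM : 0 < M) (N : ℤ) :
    ∃ d' : ℤ, N < d' ∧ M ∣ d' - d ∧ InC H d' ∧ Admissible d' := by
  obtain ⟨v, hv, hsat, hvd⟩ := hd
  obtain ⟨c, e, hce, hN, hne⟩ := admissible_norm ha (by
    obtain ⟨j, hj⟩ := even_disc hH v
    exact ⟨j, by rw [← hvd, hj]; ring⟩)
  have h0 : 0 < d := by have := ha.1; omega
  have he : e ≠ 0 := by
    rintro rfl
    have h3 : IsUnit c := isCoprime_zero_right.1 hce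
    have := ha.1
    rcases Int.isUnit_iff.1 h3 with h4 | h4 <;> rw [h4] at hN <;> omega
  obtain ⟨v', c', h1, h2, h3, h4, h5, h6⟩ := family hH hr hv hsat (by rw [hvd]; exact h0)
    (c := c) (e := e) (k := 1) one_pos hne (by rw [hvd, hN]; ring) (M := M * |e|)
    (mul_pos hM (abs_pos.2 he)) (max N 6)
  rw [one_pow, one_mul] at h6
  refine ⟨H.disc v', lt_of_le_of_lt (le_max_left _ _) h3, ?_, ⟨v', h1, h2, rfl⟩, ?_⟩
  · rw [← hvd]
    exact (Dvd.intro _ rfl : M ∣ M * |e|).trans h4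
  · refine admissible_of_norm ?_ h6 (lt_of_le_of_lt (le_max_right _ _) h3)
    have h7 : e ∣ c' - c := ((dvd_abs e e).2 dvd_rfl |>.trans (Dvd.intro_left _ rfl)).trans h5
    obtain ⟨j, hj⟩ := h7
    have h8 : c' = c + e * j := by linarith
    rw [h8]
    exact IsCoprime.add_mul_left_left hce j

/-- a special cubic fourfold is in some `C_d` -/
theorem exists_special (hH : H.IsCubic) (hr : 2 ≤ Module.finrank ℤ H.hodge) :
    ∃ d : ℤ, 0 < d ∧ InC H d := by
  obtain ⟨x, hx, hx2⟩ := exists_ker (n := 1) (by omega) ![hL H]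
  have h1 := disc_pos_of hH hx (hx2 0)
  obtain ⟨w, m, l, hm, hsat, hw⟩ := hH.exists_saturated _ h1
  have hwH : H.IsHodge w := by
    refine H.isHodge_of_smul hm.ne' ?_
    have h1 : m • w = (x : Fin 23 → ℤ) - l • H.h := by
      rw [hw]
      abel
    rw [h1]
    exact H.isHodge_sub x.2 (H.isHodge_smul _ hH.h_hodge)
  refine ⟨H.disc w, ?_, w, hwH, hsat, rfl⟩
  by_contra hcon
  push Not at hcon
  have h2 : m ^ 2 * H.disc w ≤ 0 := mul_nonpos_of_nonneg_of_nonpos (by positivity) hcon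
  rw [← hH.disc_comb m l, ← hw] at h2
  exact absurd h1 (not_lt.2 h2)

/-- rank two: exactly one discriminant -/
theorem existsUnique (hH : H.IsCubic) (hr : Module.finrank ℤ H.hodge = 2) :
    ∃! d : ℤ, 0 < d ∧ InC H d := by
  obtain ⟨d, h0, h1⟩ := exists_special hH (by omega)
  exact ⟨d, ⟨h0, h1⟩, fun e he => unique_of_two hH hr he.2 h1 he.1 h0⟩

/-- all discriminants -/
theorem main_all (hH : H.IsCubic) (hr : 3 ≤ Module.finrank ℤ H.hodge) {d : ℤ} (hd : InC H d)
    (h0 : 0 < d) {M : ℤ} (hM : 0 < M) (N : ℤ) : ∃ d' : ℤ, N < d' ∧ M ∣ d' - d ∧ InC H d' := by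
  obtain ⟨v, hv, hsat, hvd⟩ := hd
  rw [← hvd] at h0
  obtain ⟨z, hz, hzh, hzz, -, hG⟩ := exists_z hH hr hv h0
  have hzd : H.disc z = 3 * H.ip z z := disc_of_orth hH hzh
  have hzD : H.ip z v * 3 = D H v z := by rw [D_comm hH, D_of_orth hzh v]; ring
  obtain ⟨T, hT⟩ : ∃ T : ℤ, T = |N| + 6 * |H.ip z v| + 1 := ⟨_, rfl⟩
  have hT1 : 1 ≤ T := by
    have := abs_nonneg N
    have := abs_nonneg (H.ip z v)
    omega
  obtain ⟨μ, hμ⟩ : ∃ μ, μ = 2 * (M * G H z v * T * 1) * 1 := ⟨_, rfl⟩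
  have hμT : 2 * T ≤ |μ| := by
    rw [hμ]
    exact size2 hG hM hT1 one_ne_zero one_ne_zero
  have hd' : H.disc (v + μ • z) = H.disc v + 3 * H.ip z z * μ ^ 2 + 6 * μ * H.ip z v := by
    have e1 := disc_comb2 hH 1 μ v z
    rw [one_smul] at e1
    rw [e1, hzd, ← hzD]
    ring
  have hbig : |N| < H.disc (v + μ • z) := by
    rw [hd']
    exact size hzz h0 (by omega) hμT
  have h3 := abs_nonneg N
  refine ⟨H.disc (v + μ • z), lt_of_le_of_lt (le_abs_self N) hbig, ?_, v + μ • z,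
    H.isHodge_add hv (H.isHodge_smul _ hz), saturated_add hH h0 hsat ?_ (by omega), rfl⟩
  · rw [← hvd, hd', hμ]
    exact ⟨2 * (G H z v * T) * (3 * H.ip z z * (2 * (M * G H z v * T)) + 6 * H.ip z v), by ring⟩
  · rw [hμ]
    exact ⟨2 * (M * T), by ring⟩

/-- the numbers of Addington and Hassett -/
theorem main_hilb (hH : H.IsCubic) (hr : 3 ≤ Module.finrank ℤ H.hodge) {d a n : ℤ}
    (hd : InC H d) (h0 : 0 < d) (ha : 0 < a) (h : a ^ 2 * d = 2 * n ^ 2 + 2 * n + 2) {M : ℤ}
    (hM : 0 < M) (N : ℤ) : ∃ d' n' : ℤ, N < d' ∧ M ∣ d' - d ∧ M ∣ n' - n ∧ InC H d' ∧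
      a ^ 2 * d' = 2 * n' ^ 2 + 2 * n' + 2 := by
  obtain ⟨v, hv, hsat, hvd⟩ := hd
  obtain ⟨v', c', h1, h2, h3, h4, h5, h6⟩ := family hH hr hv hsat (by rw [hvd]; exact h0)
    (c := -n) (e := 1) (k := a) ha (by omega) (by rw [hvd, h]; ring) hM N
  refine ⟨H.disc v', -c', h3, by rw [← hvd]; exact h4, ?_, ⟨v', h1, h2, rfl⟩, by rw [h6]; ring⟩
  have : -c' - n = -(c' - -n) := by ring
  rw [this]
  exact (dvd_neg).2 h5

end Pool.Agent.Q53.LFT
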