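import Pool.Agent.Q53.LFT.Mukai

/-!
# Twisted K3 surfaces of cubic fourfolds: the local criterion for an untwisted one
-/

set_option autoImplicit false

namespace Pool.Agent.Q53.LFT

open Pool.Agent.Q168.TW Pool.Agent.Q168.CF4

open Pool.Agent.Q53.LFY Pool.Agent.Q53.LFY.CubLat Pool.Agent.Q53.LFA Pool.Agent.Q53.LFB

variable {H : CubLat}

/-- a root of `x^2 - x + 1` modulo a prime number which is `1` modulo `3` -/
theorem exists_root {ℓ : ℕ} (hℓ : ℓ.Prime) (h1 : ℓ % 3 = 1) :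
    ∃ x : ℤ, (ℓ : ℤ) ∣ x ^ 2 - x + 1 := by
  have : Fact ℓ.Prime := ⟨hℓ⟩
  have hc : 3 ∣ Fintype.card (ZMod ℓ)ˣ := by
    rw [ZMod.card_units_eq_totient, Nat.totient_prime hℓ]
    omega
  obtain ⟨g, hg⟩ := exists_prime_orderOf_dvd_card (G := (ZMod ℓ)ˣ) 3 hc
  obtain ⟨x, hx⟩ : ∃ x : ZMod ℓ, x = -(g : ZMod ℓ) := ⟨_, rfl⟩
  have hg3 : (g : ZMod ℓ) ^ 3 = 1 := by
    have : g ^ 3 = 1 := by rw [← hg, pow_orderOf_eq_one]
    have h2 := congrArg Units.val this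
    simpa using h2
  have hg1 : (g : ZMod ℓ) ≠ 1 := by
    intro h
    have h2 : g = 1 := Units.ext (by simpa using h)
    rw [h2, orderOf_one] at hg
    omega
  have h2 : x ^ 2 - x + 1 = 0 := by
    have h3 : ((g : ZMod ℓ) - 1) * (x ^ 2 - x + 1) = 0 := by
      rw [hx]; linear_combination hg3
    exact (mul_eq_zero.1 h3).resolve_left (sub_ne_zero.2 hg1)
  obtain ⟨n, hn⟩ := ZMod.intCast_surjective x
  refine ⟨n, ?_⟩
  rw [← ZMod.intCast_zmod_eq_zero_iff_dvd]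
  push_cast
  rw [hn, h2]

/-- the norm form represents every residue modulo an odd prime number other than `3` -/
theorem exists_norm_mod {ℓ : ℕ} (hℓ : ℓ.Prime) (h3 : ℓ ≠ 3) (q : ℤ) :
    ∃ a b : ℤ, (ℓ : ℤ) ∣ a ^ 2 - a * b + b ^ 2 - q := by
  have : Fact ℓ.Prime := ⟨hℓ⟩
  rcases hℓ.eq_two_or_odd' with h2 | hodd
  · rcases Int.even_or_odd' q with ⟨c, hc | hc⟩
    · exact ⟨0, 0, -c, by rw [h2, hc]; push_cast; ring⟩
    · exact ⟨1, 0, -c, by rw [h2, hc]; push_cast; ring⟩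
  · have h2 : (2 : ZMod ℓ) ≠ 0 := by
      intro h
      have : ((2 : ℕ) : ZMod ℓ) = 0 := by exact_mod_cast h
      rw [ZMod.natCast_eq_zero_iff] at this
      have := (Nat.prime_dvd_prime_iff_eq hℓ Nat.prime_two).1 this
      rw [this] at hodd
      exact absurd hodd (by decide)
    have h3' : (3 : ZMod ℓ) ≠ 0 := by
      intro h
      have : ((3 : ℕ) : ZMod ℓ) = 0 := by exact_mod_cast h
      rw [ZMod.natCast_eq_zero_iff] at this
      exact h3 ((Nat.prime_dvd_prime_iff_eq hℓ Nat.prime_three).1 this)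
    obtain ⟨x, y, hxy⟩ := FiniteField.exists_root_sum_quadratic (R := ZMod ℓ)
      (f := Polynomial.X ^ 2) (g := Polynomial.C 3 * Polynomial.X ^ 2 - Polynomial.C (4 * (q : ZMod ℓ)))
      (Polynomial.degree_X_pow 2) (by
        rw [Polynomial.degree_sub_eq_left_of_degree_lt, Polynomial.degree_C_mul_X_pow 2 h3']
        · rfl
        · rw [Polynomial.degree_C_mul_X_pow 2 h3']
          exact lt_of_le_of_lt Polynomial.degree_C_le (by decide)) (by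
        rw [ZMod.card]; exact Nat.odd_iff.1 hodd)
    simp only [Polynomial.eval_pow, Polynomial.eval_X, Polynomial.eval_sub, Polynomial.eval_mul,
      Polynomial.eval_C] at hxy
    obtain ⟨b, hb⟩ := ZMod.intCast_surjective y
    obtain ⟨a, ha⟩ := ZMod.intCast_surjective ((x + y) / 2)
    refine ⟨a, b, ?_⟩
    rw [← ZMod.intCast_zmod_eq_zero_iff_dvd]
    push_cast
    rw [ha, hb]
    have h4 : (4 : ZMod ℓ) ≠ 0 := by
      have : (4 : ZMod ℓ) = 2 * 2 := by norm_num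
      rw [this]
      exact mul_ne_zero h2 h2
    have h5 : (4 : ZMod ℓ) * (((x + y) / 2) ^ 2 - (x + y) / 2 * y + y ^ 2 - q) = 0 := by
      have h6 : (4 : ZMod ℓ) * (((x + y) / 2) ^ 2 - (x + y) / 2 * y + y ^ 2 - q) =
          (2 * ((x + y) / 2)) ^ 2 - 2 * (2 * ((x + y) / 2)) * y + 4 * y ^ 2 - 4 * q := by ring
      rw [h6, mul_div_cancel₀ _ h2]
      linear_combination hxy
    exact (mul_eq_zero.1 h5).resolve_left h4

/-- the element of the Mukai lattice -/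
def mk (a b : ℤ) {v : Fin 23 → ℤ} (hv : H.IsHodge v) (h : (3 : ℤ) ∣ a + b - H.ip v H.h) : mukai H :=
  ⟨(a, b, v), hv, h⟩

/-- the square of `v.h` modulo three -/
theorem sq_mod (hH : H.IsCubic) (v : Fin 23 → ℤ) :
    (3 : ℤ) ∣ H.disc v + H.ip v H.h ^ 2 := by
  have h1 : H.disc v = 3 * H.ip v v - H.ip v H.h ^ 2 := by rw [disc, hH.comm H.h v]
  exact ⟨H.ip v v, by rw [h1]; ring⟩

/-- the local condition at a prime number `ℓ ≡ 2 mod 3` -/
theorem local_inert (hH : H.IsCubic) {ℓ : ℕ} (hℓ : ℓ.Prime) (h3 : ℓ % 3 = 2)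
    {v : Fin 23 → ℤ} (hv : H.IsHodge v) (h : ¬ (ℓ : ℤ) ∣ H.disc v / 2) :
    ∃ p y : mukai H, (ℓ : ℤ) ∣ F H p ∧ ¬ (ℓ : ℤ) ∣ B H p y := by
  obtain ⟨a₀, b₀, k, hk⟩ := exists_norm_mod hℓ (by omega) (H.disc v / 2)
  obtain ⟨c, hc⟩ := even_disc hH v
  have hc2 : H.disc v / 2 = c := by omega
  rw [hc2] at h hk
  obtain ⟨s, hs⟩ : ∃ s, s = H.ip v H.h := ⟨_, rfl⟩
  -- `ℓ ≡ 2`, so `a = a₀ + ℓ i`, with `i = 2 (s - a₀)`
  obtain ⟨m, hm⟩ : ∃ m : ℤ, (ℓ : ℤ) = 3 * m + 2 := ⟨((ℓ / 3 : ℕ) : ℤ), by omega⟩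
  obtain ⟨a, ha⟩ : ∃ a, a = a₀ + ℓ * (2 * (s - a₀)) := ⟨_, rfl⟩
  obtain ⟨b, hb⟩ : ∃ b, b = b₀ + ℓ * (2 * (- b₀)) := ⟨_, rfl⟩
  have hmem : (3 : ℤ) ∣ a + b - H.ip v H.h := by
    rw [← hs, ha, hb, hm]
    exact ⟨s - a₀ - b₀ + 2 * m * (s - a₀) - 2 * m * b₀, by ring⟩
  have hN : (ℓ : ℤ) ∣ a ^ 2 - a * b + b ^ 2 - c := by
    have e : a ^ 2 - a * b + b ^ 2 - c = (a₀ ^ 2 - a₀ * b₀ + b₀ ^ 2 - c) +
        ℓ * (2 * a₀ * (2 * (s - a₀)) + ℓ * (2 * (s - a₀)) ^ 2 - a₀ * (2 * (- b₀)) -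
          2 * (s - a₀) * b₀ - ℓ * (2 * (s - a₀)) * (2 * (- b₀)) + 2 * b₀ * (2 * (- b₀)) +
          ℓ * (2 * (- b₀)) ^ 2) := by
      rw [ha, hb]; ring
    rw [e]
    exact dvd_add ⟨k, hk⟩ (Dvd.intro _ rfl)
  have hℓ' : Prime (ℓ : ℤ) := Nat.prime_iff_prime_int.1 hℓ
  have hcop3 : IsCoprime (ℓ : ℤ) 3 := by
    rw [Int.isCoprime_iff_gcd_eq_one]
    have : Nat.Coprime ℓ 3 := (Nat.coprime_primes hℓ Nat.prime_three).2 (by omega)
    exact this
  have hF3 : 3 * F H (mk a b hv hmem) = a ^ 2 - a * b + b ^ 2 - c := by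
    have h6 := six_F hH (mk a b hv hmem)
    simp only [mk] at h6 ⊢
    linarith
  have hFd : (ℓ : ℤ) ∣ F H (mk a b hv hmem) := by
    rw [← hF3] at hN
    exact hcop3.dvd_of_dvd_mul_left hN
  have hab : ¬ ((ℓ : ℤ) ∣ a ∧ (ℓ : ℤ) ∣ b) := by
    rintro ⟨h1, h2⟩
    apply h
    have e : c = (a * (a - b) + b * b) - (a ^ 2 - a * b + b ^ 2 - c) := by ring
    rw [e]
    exact dvd_sub (dvd_add (Dvd.dvd.mul_right h1 _) (Dvd.dvd.mul_right h2 _)) hN
  by_cases hA : (ℓ : ℤ) ∣ a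
  · refine ⟨mk a b hv hmem, A₁, hFd, ?_⟩
    rw [(isQuad hH).comm, B_A₁ hH]
    exact fun h => hab ⟨hA, h⟩
  · refine ⟨mk a b hv hmem, A₂, hFd, ?_⟩
    rw [(isQuad hH).comm, B_A₂ hH, dvd_neg]
    exact hA

/-- the local condition at `3` -/
theorem local_ram (hH : H.IsCubic) {v : Fin 23 → ℤ} (hv : H.IsHodge v)
    (h : H.disc v % 3 = 2 ∨ H.disc v % 18 = 6) :
    ∃ p y : mukai H, (3 : ℤ) ∣ F H p ∧ ¬ (3 : ℤ) ∣ B H p y := by
  obtain ⟨c, hc⟩ := even_disc hH v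
  obtain ⟨s, hs⟩ : ∃ s, s = H.ip v H.h := ⟨_, rfl⟩
  have hsq := sq_mod hH v
  rw [← hs] at hsq
  obtain ⟨j, hj⟩ : ∃ j, s = 3 * j + s % 3 := ⟨s / 3, by omega⟩
  have hs3 : s % 3 = 0 ∨ s % 3 = 1 ∨ s % 3 = 2 := by omega
  rcases h with h | h
  · -- `b = 0`, `a ≡ s`, `a ^ 2 ≡ c mod 9`
    have hc3 : c % 3 = 1 := by omega
    obtain ⟨a, ha1, ha2⟩ : ∃ a : ℤ, (3 : ℤ) ∣ a + 0 - s ∧ (9 : ℤ) ∣ a ^ 2 - c ∧ ¬ (3 : ℤ) ∣ a := by
      have hc9 : c % 9 = 1 ∨ c % 9 = 4 ∨ c % 9 = 7 := by omega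
      obtain ⟨d, hd⟩ : ∃ d, c = 9 * d + c % 9 := ⟨c / 9, by omega⟩
      rcases hs3 with h0 | h0 | h0
      · exfalso
        rw [h0, add_zero] at hj
        obtain ⟨e, he⟩ := hsq
        rw [hj] at he
        have : (3 * j) ^ 2 = 3 * (3 * j ^ 2) := by ring
        rw [this] at he
        omega
      · rcases hc9 with h9 | h9 | h9 <;> rw [h9] at hd
        · exact ⟨1, by omega, ⟨-d, by rw [hd]; ring⟩, by omega⟩
        · exact ⟨7, by omega, ⟨5 - d, by rw [hd]; ring⟩, by omega⟩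
        · exact ⟨4, by omega, ⟨1 - d, by rw [hd]; ring⟩, by omega⟩
      · rcases hc9 with h9 | h9 | h9 <;> rw [h9] at hd
        · exact ⟨-1, by omega, ⟨-d, by rw [hd]; ring⟩, by omega⟩
        · exact ⟨-7, by omega, ⟨5 - d, by rw [hd]; ring⟩, by omega⟩
        · exact ⟨-4, by omega, ⟨1 - d, by rw [hd]; ring⟩, by omega⟩
    rw [hs] at ha1
    refine ⟨mk a 0 hv ha1, A₂, ?_, ?_⟩
    · have h6 := six_F hH (mk a 0 hv ha1)
      obtain ⟨e, he⟩ := ha2.1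
      simp only [mk] at h6 ⊢
      refine ⟨e, ?_⟩
      have : 6 * F H ⟨(a, 0, v), hv, ha1⟩ = 6 * (3 * e) := by
        rw [h6, hc]
        linear_combination 2 * he
      exact mul_left_cancel₀ (by norm_num) this
    · rw [(isQuad hH).comm, B_A₂ hH, dvd_neg]
      exact ha2.2
  · have h0 : s % 3 = 0 := by
      rcases hs3 with h0 | h0 | h0
      · exact h0
      all_goals
        exfalso
        rw [h0] at hj
        obtain ⟨e, he⟩ := hsq
        rw [hj] at he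
        ring_nf at he
        omega
    have ha1 : (3 : ℤ) ∣ 1 + (-1) - H.ip v H.h := by rw [← hs]; omega
    refine ⟨mk 1 (-1) hv ha1, A₁, ?_, ?_⟩
    · have h6 := six_F hH (mk 1 (-1) hv ha1)
      simp only [mk] at h6 ⊢
      obtain ⟨e, he⟩ : ∃ e, H.disc v = 18 * e + 6 := ⟨H.disc v / 18, by omega⟩
      refine ⟨-e, ?_⟩
      have : 6 * F H ⟨(1, -1, v), hv, ha1⟩ = 6 * (3 * -e) := by
        rw [h6, he]
        ring
      exact mul_left_cancel₀ (by norm_num) this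
    · rw [(isQuad hH).comm, B_A₁ hH]
      show ¬ (3 : ℤ) ∣ -1
      decide

/-- the local condition at a prime number `ℓ ≡ 1 mod 3` -/
theorem local_split (hH : H.IsCubic) {ℓ : ℕ} (hℓ : ℓ.Prime) (h1 : ℓ % 3 = 1) :
    ∃ p y : mukai H, (ℓ : ℤ) ∣ F H p ∧ ¬ (ℓ : ℤ) ∣ B H p y := by
  obtain ⟨x, hx⟩ := exists_root hℓ h1
  have hq := isQuad hH
  have hA := isA2 hH
  have hF : F H (x • A₁ + (1 : ℤ) • A₂) = x ^ 2 - x + 1 := by
    rw [hq.F_comb, hA.one, hA.two, hA.cross]; ring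
  by_cases h2 : (ℓ : ℤ) ∣ 2 * x - 1
  · refine ⟨x • A₁ + (1 : ℤ) • A₂, A₂, by rw [hF]; exact hx, ?_⟩
    rw [hq.add_left, hq.smul_left, hq.smul_left, hA.cross, hq.self, hA.two]
    intro h
    have h3 : (ℓ : ℤ) ∣ 3 := by
      have : (3 : ℤ) = 2 * (x * -1 + 1 * (2 * 1)) + (2 * x - 1) := by ring
      rw [this]
      exact dvd_add (Dvd.dvd.mul_left h 2) h2
    have h4 : ℓ ∣ 3 := by exact_mod_cast h3
    have := (Nat.prime_dvd_prime_iff_eq hℓ Nat.prime_three).1 h4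
    omega
  · refine ⟨x • A₁ + (1 : ℤ) • A₂, A₁, by rw [hF]; exact hx, ?_⟩
    rw [hq.add_left, hq.smul_left, hq.smul_left, hq.comm A₂ A₁, hA.cross, hq.self, hA.one]
    intro h
    apply h2
    have : 2 * x - 1 = x * (2 * 1) + 1 * -1 := by ring
    rw [this]
    exact h

/-- a class whose discriminant is twice a norm gives an isotropic vector -/
theorem exists_isotropic (hH : H.IsCubic) {v : Fin 23 → ℤ} (hv : H.IsHodge v) {a b : ℤ}
    (h : H.disc v = 2 * (a ^ 2 + a * b + b ^ 2)) (h0 : H.disc v ≠ 0) :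
    ∃ p : mukai H, F H p = 0 ∧ ∃ x, B H p x ≠ 0 := by
  have hq := isQuad hH
  obtain ⟨s, hs⟩ : ∃ s, s = H.ip v H.h := ⟨_, rfl⟩
  have hsq := sq_mod hH v
  rw [← hs] at hsq
  -- `(a - b)^2 ≡ s^2`
  have h1 : (3 : ℤ) ∣ (a - b - s) * (a - b + s) := by
    obtain ⟨k, hk⟩ := hsq
    refine ⟨a ^ 2 + b ^ 2 - k, ?_⟩
    rw [h] at hk
    linear_combination -hk
  have key : ∀ a b : ℤ, H.disc v = 2 * (a ^ 2 + a * b + b ^ 2) → (3 : ℤ) ∣ a - b - s →
      ∃ p : mukai H, F H p = 0 ∧ ∃ x, B H p x ≠ 0 := by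
    intro a b h h2
    have hmem : (3 : ℤ) ∣ a + (-b) - H.ip v H.h := by rw [← hs]; omega
    refine ⟨mk a (-b) hv hmem, ?_, ?_⟩
    · have h6 := six_F hH (mk a (-b) hv hmem)
      simp only [mk] at h6 ⊢
      have : 6 * F H ⟨(a, -b, v), hv, hmem⟩ = 6 * 0 := by
        rw [h6, h]; ring
      exact mul_left_cancel₀ (by norm_num) this
    · by_contra hcon
      push Not at hcon
      have e1 := hcon A₁
      have e2 := hcon A₂
      rw [hq.comm, B_A₁ hH] at e1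
      rw [hq.comm, B_A₂ hH, neg_eq_zero] at e2
      simp only [mk] at e1 e2
      have e3 : b = 0 := by omega
      rw [e2, e3] at h
      apply h0
      rw [h]
      norm_num
  rcases Int.prime_three.dvd_or_dvd h1 with h2 | h2
  · exact key a b h h2
  · exact key (-a) (-b) (by rw [h]; ring) (by omega)

/-- a class with a primitive norm -/
theorem hasK3_of_norm (hH : H.IsCubic) {v : Fin 23 → ℤ} (hv : H.IsHodge v) {a b : ℤ}
    (h : H.disc v = 2 * (a ^ 2 - a * b + b ^ 2)) (h3 : ¬ ((3 : ℤ) ∣ a ∧ (3 : ℤ) ∣ b))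
    (hp : ∀ ℓ : ℕ, ℓ.Prime → ℓ % 3 = 2 → ¬ ((ℓ : ℤ) ∣ a ∧ (ℓ : ℤ) ∣ b)) : H.HasK3 := by
  have hpos : 0 < H.disc v := by
    rw [h]
    by_contra hcon
    have h2 : a ^ 2 - a * b + b ^ 2 ≤ 0 := by omega
    have h4 : a = 0 := by nlinarith [sq_nonneg (a - b), sq_nonneg a, sq_nonneg b]
    have h5 : b = 0 := by nlinarith [sq_nonneg (a - b), sq_nonneg a, sq_nonneg b]
    apply h3
    rw [h4, h5]
    exact ⟨dvd_zero _, dvd_zero _⟩
  obtain ⟨w, m, l, hm, hsat, hw⟩ := hH.exists_saturated _ hpos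
  have hwH : H.IsHodge w := by
    refine H.isHodge_of_smul hm.ne' ?_
    have h1 : m • w = v - l • H.h := by
      rw [hw]
      abel
    rw [h1]
    exact H.isHodge_sub hv (H.isHodge_smul _ hH.h_hodge)
  have hmw : m ^ 2 * H.disc w = 2 * (a ^ 2 - a * b + b ^ 2) := by
    rw [← h, hw, hH.disc_comb]
  have hw0 : 0 < H.disc w := by
    by_contra hcon
    push Not at hcon
    have : m ^ 2 * H.disc w ≤ 0 := mul_nonpos_of_nonneg_of_nonpos (by positivity) hcon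
    rw [hmw, ← h] at this
    linarith
  refine ⟨w, hwH, hsat, hH.six_lt hwH hw0, ?_, ?_, fun p hpp hp2 hd hmod => ?_⟩
  · rintro ⟨k, hk⟩
    rw [hk] at hmw
    have h1 : ((2 : ℕ) : ℤ) ∣ a ^ 2 - a * b + b ^ 2 := ⟨m ^ 2 * k, by push_cast; linarith⟩
    exact hp 2 Nat.prime_two (by norm_num) (inert_dvd Nat.prime_two (by norm_num) h1)
  · rintro ⟨k, hk⟩
    rw [hk] at hmw
    have h1 : (9 : ℤ) ∣ 2 * (a ^ 2 - a * b + b ^ 2) := ⟨m ^ 2 * k, by rw [← hmw]; ring⟩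
    have h2 : (9 : ℤ) ∣ a ^ 2 - a * b + b ^ 2 := by omega
    obtain ⟨j, hj⟩ := h2
    have h4 : (3 : ℤ) ∣ (a + b) ^ 2 := ⟨3 * j + a * b, by linear_combination hj⟩
    obtain ⟨i, hi⟩ := Int.prime_three.dvd_of_dvd_pow h4
    have h5 : (3 : ℤ) ∣ a * b := by
      refine ⟨i ^ 2 - j, ?_⟩
      have h6 : a = 3 * i - b := by linarith
      rw [h6] at hj ⊢
      linarith
    apply h3
    rcases Int.prime_three.dvd_or_dvd h5 with h6 | h6
    · exact ⟨h6, by omega⟩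
    · exact ⟨by omega, h6⟩
  · have h1 : (p : ℤ) ∣ 2 * (a ^ 2 - a * b + b ^ 2) := by
      rw [← hmw]
      exact Dvd.dvd.mul_left hd _
    have hpp' : Prime (p : ℤ) := Nat.prime_iff_prime_int.1 hpp
    rcases hpp'.dvd_or_dvd h1 with h2 | h2
    · have h4 : p ∣ 2 := by exact_mod_cast h2
      exact hp2 ((Nat.prime_dvd_prime_iff_eq hpp Nat.prime_two).1 h4)
    · exact hp p hpp hmod (inert_dvd hpp hmod h2)

/-- `X` has a twisted K3 surface: there is a Hodge class whose discriminant is twice a nonzero norm -/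
def Twisted (H : CubLat) : Prop :=
  ∃ v, H.IsHodge v ∧ H.disc v ≠ 0 ∧ ∃ a b : ℤ, H.disc v = 2 * (a ^ 2 + a * b + b ^ 2)

/-- the local conditions -/
def Local (H : CubLat) : Prop :=
  (∀ p : ℕ, p.Prime → p % 3 = 2 → ∃ v, H.IsHodge v ∧ ¬ (p : ℤ) ∣ H.disc v / 2) ∧
    ∃ v, H.IsHodge v ∧ (H.disc v % 3 = 2 ∨ H.disc v % 18 = 6)

/-- **the criterion, first direction** -/
theorem hasK3_of_local (hH : H.IsCubic) (ht : Twisted H) (hl : Local H) : H.HasK3 := by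
  obtain ⟨v, hv, h0, a, b, hab⟩ := ht
  obtain ⟨p₀, hp0, hp1⟩ := exists_isotropic hH hv hab h0
  have hq := isQuad hH
  obtain ⟨p, y, h1, h2, h3⟩ := hq.exists_hyperbolic hp0 hp1 fun ℓ hℓ => by
    have h4 : ℓ % 3 = 0 ∨ ℓ % 3 = 1 ∨ ℓ % 3 = 2 := by omega
    rcases h4 with h4 | h4 | h4
    · have h5 : ℓ = 3 := ((Nat.prime_dvd_prime_iff_eq Nat.prime_three hℓ).1
        (Nat.dvd_of_mod_eq_zero h4)).symm
      subst h5
      obtain ⟨w, hw, hw2⟩ := hl.2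
      exact local_ram hH hw hw2
    · exact local_split hH hℓ h4
    · obtain ⟨w, hw, hw2⟩ := hl.1 ℓ hℓ h4
      exact local_inert hH hℓ h4 hw hw2
  obtain ⟨q, h4, h5, h6⟩ := exists_prim hq (isA2 hH) h1 h2 h3 (negdef hH)
  obtain ⟨⟨c, d, w⟩, hw1, hw2⟩ := q
  simp only [B_A₁ hH, B_A₂ hH, dvd_neg] at h5 h6
  have h7 := six_F hH ⟨(c, d, w), hw1, hw2⟩
  rw [h4] at h7
  simp only at h7
  exact hasK3_of_norm hH hw1 (a := c) (b := d) (by linarith) h5 h6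

/-- **the criterion, second direction** -/
theorem local_of_hasK3 (hH : H.IsCubic) (h : H.HasK3) : Local H := by
  obtain ⟨v, hv, -, hadm⟩ := h
  obtain ⟨c, hc⟩ := even_disc hH v
  refine ⟨fun p hp h3 => ⟨v, hv, fun hd => ?_⟩, v, hv, admissible_mod hadm (by omega)⟩
  have h1 : H.disc v / 2 = c := by omega
  rw [h1] at hd
  by_cases hp2 : p = 2
  · subst hp2
    obtain ⟨k, hk⟩ := hd
    exact hadm.2.1 ⟨k, by rw [hc, hk]; push_cast; ring⟩
  · exact hadm.2.2.2 p hp hp2 (by rw [hc]; exact Dvd.dvd.mul_left hd 2) h3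

/-- if `p` divides all numbers `disc v / 2`, then `p^(r-1)` divides the discriminant of `A(X)` -/
theorem prime_pow_dvd (hH : H.IsCubic) {r : ℕ} (b : Module.Basis (Fin r) ℤ H.hodge)
    {p : ℕ} (hp : p.Prime) (hp3 : p ≠ 3) (h4 : ∀ v, H.IsHodge v → (p : ℤ) ∣ H.disc v / 2) :
    (p : ℤ) ^ (r - 1) ∣ discA b := by
  match r, b with
  | 0, b => simp
  | n + 1, b =>
    have hB := isForm hH
    have hv : (⟨H.h, hH.h_hodge⟩ : H.hodge) ≠ 0 := by
      intro h0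
      have h1 : H.h = 0 := congrArg Subtype.val h0
      have h2 := hH.h_self
      rw [h1, ip_zero_left] at h2
      omega
    obtain ⟨c, hc1, hc2, hB', hdet⟩ := Red.step hB b hv (by
      intro k m x hk h
      obtain ⟨t, -, ht⟩ := hH.h_prim (g := k) (c := m) (z := (x : Fin 23 → ℤ)) hk (by
        have := congrArg Subtype.val h
        simpa using this)
      exact ⟨t, Subtype.ext (by simpa using ht)⟩)
    have hg : (Red.gram (fun x y : H.hodge => H.ip (x : Fin 23 → ℤ) (y : Fin 23 → ℤ)) b).det =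
        discA b := rfl
    simp only [hH.h_self] at hdet
    rw [hg] at hdet
    have hev : ∀ i j : Fin n, ∃ d, Red.gram (fun x y : Fin n → ℤ =>
        3 * H.ip (Red.comb c x : H.hodge) (Red.comb c y : H.hodge) -
        H.ip (Red.comb c x : H.hodge) H.h * H.ip (Red.comb c y : H.hodge) H.h)
        (Pi.basisFun ℤ (Fin n)) i j = p * d := by
      intro i j
      simp only [Red.gram, Matrix.of_apply]
      obtain ⟨x, hx⟩ : ∃ x : H.hodge, x = Red.comb c (Pi.basisFun ℤ (Fin n) i) := ⟨_, rfl⟩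
      obtain ⟨y, hy⟩ : ∃ y : H.hodge, y = Red.comb c (Pi.basisFun ℤ (Fin n) j) := ⟨_, rfl⟩
      rw [← hx, ← hy]
      have e := disc_comb2 hH 1 1 (x : Fin 23 → ℤ) (y : Fin 23 → ℤ)
      obtain ⟨a1, h1⟩ := h4 _ (H.isHodge_add (H.isHodge_smul 1 x.2) (H.isHodge_smul 1 y.2))
      obtain ⟨a2, h2⟩ := h4 _ x.2
      obtain ⟨a3, h3⟩ := h4 _ y.2
      obtain ⟨c1, hc1⟩ := even_disc hH ((1 : ℤ) • (x : Fin 23 → ℤ) + (1 : ℤ) • (y : Fin 23 → ℤ))
      obtain ⟨c2, hc2⟩ := even_disc hH (x : Fin 23 → ℤ)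
      obtain ⟨c3, hc3⟩ := even_disc hH (y : Fin 23 → ℤ)
      have f1 : c1 = p * a1 := by omega
      have f2 : c2 = p * a2 := by omega
      have f3 : c3 = p * a3 := by omega
      refine ⟨a1 - a2 - a3, ?_⟩
      have e2 : D H (x : Fin 23 → ℤ) (y : Fin 23 → ℤ) = p * (a1 - a2 - a3) := by
        rw [hc1, hc2, hc3, f1, f2, f3] at e
        have : 2 * D H (x : Fin 23 → ℤ) (y : Fin 23 → ℤ) = 2 * (p * (a1 - a2 - a3)) := by
          linear_combination -e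
        exact mul_left_cancel₀ (by norm_num) this
      exact e2
    choose d hd using hev
    obtain ⟨G, hG⟩ : ∃ G : Matrix (Fin n) (Fin n) ℤ, G = Red.gram (fun x y : Fin n → ℤ =>
        3 * H.ip (Red.comb c x : H.hodge) (Red.comb c y : H.hodge) -
        H.ip (Red.comb c x : H.hodge) H.h * H.ip (Red.comb c y : H.hodge) H.h)
        (Pi.basisFun ℤ (Fin n)) := ⟨_, rfl⟩
    rw [← hG] at hdet
    have h5 : G = (p : ℤ) • Matrix.of d := by
      ext i j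
      rw [hG, hd]
      simp
    rw [h5, Matrix.det_smul, Fintype.card_fin] at hdet
    rw [Nat.add_sub_cancel]
    have h6 : (p : ℤ) ^ n ∣ 3 ^ n * discA b := by
      rw [← hdet]
      exact ⟨3 * (Matrix.of d).det, by ring⟩
    have h7 : IsCoprime ((p : ℤ) ^ n) (3 ^ n) := by
      refine IsCoprime.pow ?_
      rw [Int.isCoprime_iff_gcd_eq_one]
      exact (Nat.coprime_primes hp Nat.prime_three).2 hp3
    exact h7.dvd_of_dvd_mul_left h6

/-- the discriminant of the transcendental lattice if there is no untwisted K3 surface -/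
theorem dvd_of_not_hasK3 (hH : H.IsCubic) (ht : Twisted H) (hno : ¬ H.HasK3) {r : ℕ}
    (b : Module.Basis (Fin r) ℤ H.hodge) :
    ∃ p : ℕ, p.Prime ∧ (p = 3 ∨ p % 3 = 2) ∧ (p : ℤ) ^ (r - 1) ∣ discA b := by
  by_contra hcon
  push Not at hcon
  apply hno
  refine hasK3_of_local hH ht ⟨fun p hp h3 => ?_, ?_⟩
  · by_contra h
    push Not at h
    exact hcon p hp (Or.inr h3) (prime_pow_dvd hH b hp (by omega) h)
  · by_contra h
    have h' : ∀ v, H.IsHodge v → ¬ (H.disc v % 3 = 2 ∨ H.disc v % 18 = 6) := fun v hv h2 =>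
      h ⟨v, hv, h2⟩
    have := three_pow_dvd hH b h'
    exact hcon 3 Nat.prime_three (Or.inl rfl) (by exact_mod_cast this)

end Pool.Agent.Q53.LFT
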